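import Mathlib

/-!
# Packing densities of convex bodies in three-space: definitions
-/

set_option autoImplicit false
namespace Pool.Agent.Helper69.MD
open MeasureTheory Filter
open scoped Pointwise ENNReal

/-- Euclidean three-space. -/
abbrev E3 : Type := EuclideanSpace ℝ (Fin 3)

/-- A convex body: a compact convex set with nonempty interior. -/
structure IsConvexBody (K : Set E3) : Prop where
  convex : Convex ℝ K
  isCompact : IsCompact K
  interior_nonempty : (interior K).Nonempty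

/-- The translates `u + M`, `u ∈ Λ`, form a packing: their interiors are pairwise disjoint. -/
def IsPacking (M : Set E3) (Λ : Submodule ℤ E3) : Prop :=
  ∀ u ∈ Λ, ∀ w ∈ Λ, u ≠ w → Disjoint (interior (u +ᵥ M)) (interior (w +ᵥ M))

/-- The density of the family `u + M`, `u ∈ Λ`: the limsup, as `r → ∞`, of
`(∑ Vol((u + M) ∩ B(r))) / Vol(B(r))`. -/
noncomputable def density (M : Set E3) (Λ : Submodule ℤ E3) : ℝ≥0∞ :=
  limsup (fun r : ℝ => (∑' u : Λ, volume (((u : E3) +ᵥ M) ∩ Metric.closedBall (0 : E3) r)) /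
    volume (Metric.closedBall (0 : E3) r)) atTop

/-- `δ_L(K)`: the supremum of the densities of all packings `{u + K : u ∈ Λ}`, `Λ` a lattice. -/
noncomputable def deltaL (K : Set E3) : ℝ≥0∞ :=
  ⨆ (Λ : Submodule ℤ E3) (_ : DiscreteTopology Λ) (_ : IsZLattice ℝ Λ) (_ : IsPacking K Λ),
    density K Λ

/-- `δ_{L*}(K)`: the supremum of the densities of all packings `{u + (K ∪ (v - K)) : u ∈ Λ}`,
`Λ` a lattice and `v` a vector such that `K` and `v - K` have disjoint interiors. -/
noncomputable def deltaLstar (K : Set E3) : ℝ≥0∞ :=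
  ⨆ (Λ : Submodule ℤ E3) (_ : DiscreteTopology Λ) (_ : IsZLattice ℝ Λ) (v : E3)
    (_ : Disjoint (interior K) (interior (v +ᵥ -K))) (_ : IsPacking (K ∪ (v +ᵥ -K)) Λ),
    density (K ∪ (v +ᵥ -K)) Λ

/-- `Λ` is a (full-rank) lattice. -/
def IsLattice (Λ : Submodule ℤ E3) : Prop := ∃ _ : DiscreteTopology Λ, IsZLattice ℝ Λ

/-- The sets `u + (K ∪ (v - K))`, `u ∈ Λ`, form a packing and `K`, `v - K` have disjoint
interiors: a packing of the class of `δ_{L*}`. -/
def IsDoublePacking (K : Set E3) (v : E3) (Λ : Submodule ℤ E3) : Prop :=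
  Disjoint (interior K) (interior (v +ᵥ -K)) ∧ IsPacking (K ∪ (v +ᵥ -K)) Λ

/-- Cutting off caps of `K` inside the ball `B(p, ε)` does not decrease `δ`:
`δ(K) ≤ δ(K')` for all convex bodies `K' ⊆ K` that contain `K ∖ B(p, ε)`. -/
def CutStable (δ : Set E3 → ℝ≥0∞) (K : Set E3) (p : E3) (ε : ℝ) : Prop :=
  ∀ K' : Set E3, IsConvexBody K' → K' ⊆ K → K \ Metric.ball p ε ⊆ K' → δ K ≤ δ K'

end Pool.Agent.Helper69.MD
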