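import Pool.Agent.Helper69.MD.Limit

/-!
# The density of a lattice family is volume divided by covolume
-/

set_option autoImplicit false
namespace Pool.Agent.Helper69.MD
open MeasureTheory Filter Topology Metric
open scoped Pointwise ENNReal

theorem ratio_tendsto (a : ℝ) (q : ℝ≥0∞) :
    Tendsto (fun r : ℝ => ENNReal.ofReal (((r + a) / r) ^ 3) * q) atTop (𝓝 q) := by
  have hlim : Tendsto (fun r : ℝ => ENNReal.ofReal (((r + a) / r) ^ 3) * q) atTop
      (𝓝 (ENNReal.ofReal (1 ^ 3) * q)) := by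
    apply ENNReal.Tendsto.mul_const
    · apply ENNReal.tendsto_ofReal
      apply Tendsto.pow
      have h1 : Tendsto (fun r : ℝ => 1 + a / r) atTop (𝓝 (1 + 0)) :=
        tendsto_const_nhds.add (tendsto_const_nhds.div_atTop tendsto_id)
      rw [add_zero] at h1
      refine h1.congr' ?_
      filter_upwards [eventually_gt_atTop (0 : ℝ)] with r hr
      field_simp
    · left; simp
  rwa [one_pow, ENNReal.ofReal_one, one_mul] at hlim

theorem ratio_eq {r s : ℝ} (hr : 0 < r) (hs : 0 ≤ s) (c m : ℝ≥0∞) :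
    volume (closedBall (0 : E3) s) / c * m / volume (closedBall (0 : E3) r) =
      ENNReal.ofReal ((s / r) ^ 3) * (m / c) := by
  have hB1 : volume (closedBall (0 : E3) 1) ≠ 0 := vol_cB_ne_zero one_pos 0
  have hB1' : volume (closedBall (0 : E3) 1) ≠ ⊤ := vol_cB_ne_top 1 0
  rw [vol_cB hs, vol_cB hr.le]
  have hr3 : ENNReal.ofReal (r ^ 3) ≠ 0 := (ENNReal.ofReal_pos.2 (by positivity)).ne'
  rw [div_pow, ENNReal.ofReal_div_of_pos (by positivity)]
  simp only [div_eq_mul_inv]
  rw [ENNReal.mul_inv (Or.inl hr3) (Or.inl ENNReal.ofReal_ne_top)]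
  calc ENNReal.ofReal (s ^ 3) * volume (closedBall (0 : E3) 1) * c⁻¹ * m *
        ((ENNReal.ofReal (r ^ 3))⁻¹ * (volume (closedBall (0 : E3) 1))⁻¹)
      = (volume (closedBall (0 : E3) 1) * (volume (closedBall (0 : E3) 1))⁻¹) *
        (ENNReal.ofReal (s ^ 3) * (ENNReal.ofReal (r ^ 3))⁻¹ * (m * c⁻¹)) := by ring
    _ = _ := by rw [ENNReal.mul_inv_cancel hB1 hB1', one_mul]

theorem density_eq {M : Set E3} (hM : Bornology.IsBounded M) (Λ : Submodule ℤ E3)
    [DiscreteTopology Λ] [IsZLattice ℝ Λ] :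
    density M Λ = volume M / ENNReal.ofReal (ZLattice.covolume Λ) := by
  obtain ⟨S, hS⟩ := hM.subset_closedBall (0 : E3)
  obtain ⟨F, R, hR0, hF, hFm, hFR, hvol, hcov⟩ := exists_dom Λ
  have hcovpos : 0 < ZLattice.covolume Λ := ZLattice.covolume_pos Λ volume
  rw [← hvol]
  have hF0 : volume F ≠ 0 := by
    rw [hvol]; exact (ENNReal.ofReal_pos.2 hcovpos).ne'
  have hfin : volume F ≠ ⊤ := by rw [hvol]; exact ENNReal.ofReal_ne_top
  have hup : ∀ r : ℝ, (∑' u : Λ, volume (((u : E3) +ᵥ M) ∩ closedBall (0 : E3) r)) ≤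
      volume (closedBall (0 : E3) (r + S + R)) / volume F * volume M := by
    intro r
    have h1 : (∑' u : Λ, volume (((u : E3) +ᵥ M) ∩ closedBall (0 : E3) r)) ≤
        (∑' u : Λ, (if ‖(u : E3) - 0‖ ≤ r + S then (1 : ℝ≥0∞) else 0)) * volume M := by
      rw [← ENNReal.tsum_mul_right]
      refine ENNReal.tsum_le_tsum (fun u => ?_)
      by_cases h : ‖(u : E3) - 0‖ ≤ r + S
      · rw [if_pos h, one_mul]
        calc _ ≤ volume ((u : E3) +ᵥ M) := measure_mono Set.inter_subset_left
          _ = volume M := measure_vadd volume (u : E3) M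
      · rw [if_neg h, zero_mul]
        have : ((u : E3) +ᵥ M) ∩ closedBall (0 : E3) r = ∅ := by
          rw [Set.eq_empty_iff_forall_notMem]
          rintro x ⟨⟨y, hy, rfl⟩, hx⟩
          apply h
          have hy2 := hS hy
          rw [mem_closedBall_zero_iff] at hy2 hx
          have : (u : E3) - 0 = ((u : E3) + y) - y := by abel
          rw [this]
          calc ‖((u : E3) + y) - y‖ ≤ ‖(u : E3) + y‖ + ‖y‖ := norm_sub_le _ _
            _ ≤ r + S := add_le_add hx hy2
        rw [this, measure_empty]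
    refine le_trans h1 ?_
    gcongr
    rw [ENNReal.le_div_iff_mul_le (Or.inl hF0) (Or.inl hfin)]
    exact count_le Λ hF hFm hFR 0 (r + S)
  have hlow : ∀ r : ℝ, volume (closedBall (0 : E3) (r - S - R)) / volume F * volume M ≤
      (∑' u : Λ, volume (((u : E3) +ᵥ M) ∩ closedBall (0 : E3) r)) := by
    intro r
    have h1 : (∑' u : Λ, (if ‖(u : E3)‖ ≤ r - S then (1 : ℝ≥0∞) else 0)) * volume M ≤
        (∑' u : Λ, volume (((u : E3) +ᵥ M) ∩ closedBall (0 : E3) r)) := by
      rw [← ENNReal.tsum_mul_right]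
      refine ENNReal.tsum_le_tsum (fun u => ?_)
      by_cases h : ‖(u : E3)‖ ≤ r - S
      · rw [if_pos h, one_mul]
        have h2 : ((u : E3) +ᵥ M) ∩ closedBall (0 : E3) r = (u : E3) +ᵥ M := by
          rw [Set.inter_eq_left]
          rintro x ⟨y, hy, rfl⟩
          have hy2 := hS hy
          rw [mem_closedBall_zero_iff] at hy2 ⊢
          change ‖(u : E3) + y‖ ≤ r
          calc ‖(u : E3) + y‖ ≤ ‖(u : E3)‖ + ‖y‖ := norm_add_le _ _
            _ ≤ (r - S) + S := add_le_add h hy2
            _ = r := by ring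
        rw [h2, measure_vadd]
      · rw [if_neg h, zero_mul]
        exact bot_le
    refine le_trans ?_ h1
    gcongr
    rw [ENNReal.div_le_iff_le_mul (Or.inl hF0) (Or.inl hfin)]
    exact le_count Λ hFR hcov (r - S)
  have hT : Tendsto (fun r : ℝ => (∑' u : Λ, volume (((u : E3) +ᵥ M) ∩ closedBall (0 : E3) r)) /
      volume (closedBall (0 : E3) r)) atTop (𝓝 (volume M / volume F)) := by
    refine tendsto_of_tendsto_of_tendsto_of_le_of_le' (ratio_tendsto (-(S + R)) _)
      (ratio_tendsto (S + R) _) ?_ ?_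
    · filter_upwards [eventually_gt_atTop (0 : ℝ), eventually_gt_atTop (S + R)] with r hr0 hr1
      rw [show r + -(S + R) = r - S - R by ring, ← ratio_eq hr0 (by linarith)]
      gcongr
      exact hlow r
    · filter_upwards [eventually_gt_atTop (0 : ℝ), eventually_gt_atTop (-(S + R))] with r hr0 hr1
      rw [show r + (S + R) = r + S + R by ring, ← ratio_eq hr0 (by linarith)]
      gcongr
      exact hup r
  exact hT.limsup_eq

end Pool.Agent.Helper69.MD
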