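import Pool.Agent.Helper69.MD.Cut

/-!
# Periodic families of translates and reflected copies; the contact theorem
-/

set_option autoImplicit false
namespace Pool.Agent.Helper69.MD
open MeasureTheory Filter Topology Metric
open scoped Pointwise ENNReal

/-- The interiors of `x + s K` and `y + t K` (`s`, `t` are signs) do not meet. -/
def NO (K : Set E3) (s : ℝ) (x : E3) (t : ℝ) (y : E3) : Prop :=
  ∀ z, s • (z - x) ∈ interior K → t • (z - y) ∈ interior K → False

variable {ι : Type*}

/-- The copies `u + v i + s i • K`, `u ∈ Λ`, form a packing. -/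
def Conf (K : Set E3) (s : ι → ℝ) (Λ : Submodule ℤ E3) (v : ι → E3) : Prop :=
  ∀ i j, ∀ u ∈ Λ, (i ≠ j ∨ u ≠ 0) → NO K (s i) (v i) (s j) (u + v j)

/-- The copy `v i + s i • K` is touched at the point corresponding to `p` by the copy
`u + v j + s j • K`. -/
def Touch (K : Set E3) (s : ι → ℝ) (v : ι → E3) (p : E3) (i j : ι) (u : E3) : Prop :=
  s j • (v i + s i • p - (u + v j)) ∈ K

theorem sign_ne_zero {t : ℝ} (h : t = 1 ∨ t = -1) : t ≠ 0 := by
  rcases h with h | h <;> rw [h] <;> norm_num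

theorem sign_mul_self {t : ℝ} (h : t = 1 ∨ t = -1) : t * t = 1 := by
  rcases h with h | h <;> rw [h] <;> norm_num

theorem sign_abs {t : ℝ} (h : t = 1 ∨ t = -1) : |t| = 1 := by
  rcases h with h | h <;> rw [h] <;> norm_num

theorem sign_smul_smul {t : ℝ} (h : t = 1 ∨ t = -1) (x : E3) : t • t • x = x := by
  rw [smul_smul, sign_mul_self h, one_smul]

theorem norm_sign_smul {t : ℝ} (h : t = 1 ∨ t = -1) (x : E3) : ‖t • x‖ = ‖x‖ := by
  rw [norm_smul, Real.norm_eq_abs, sign_abs h, one_mul]

/-- A packing lattice has no short vectors. -/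
theorem Conf.sep [Nonempty ι] {K : Set E3} {s : ι → ℝ} (hs : ∀ i, s i = 1 ∨ s i = -1)
    {Λ : Submodule ℤ E3} {v : ι → E3} (h : Conf K s Λ v) {x₀ : E3} {η : ℝ} (hη : 0 < η)
    (hball : closedBall x₀ η ⊆ K) : ∀ u ∈ Λ, u ≠ 0 → η ≤ ‖u‖ := by
  intro u hu hu0
  by_contra hcon
  push Not at hcon
  obtain ⟨i⟩ := ‹Nonempty ι›
  have hint : ball x₀ η ⊆ interior K := by
    rw [← interior_closedBall x₀ hη.ne']
    exact interior_mono hball
  refine h i i u hu (Or.inr hu0) (v i + s i • x₀) ?_ ?_
  · rw [add_sub_cancel_left, sign_smul_smul (hs i)]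
    exact hint (mem_ball_self hη)
  · apply hint
    rw [mem_ball, dist_eq_norm]
    have e : s i • (v i + s i • x₀ - (u + v i)) - x₀ = -(s i • u) := by
      have : v i + s i • x₀ - (u + v i) = s i • x₀ - u := by abel
      rw [this, smul_sub, sign_smul_smul (hs i)]
      abel
    rw [e, norm_neg, norm_sign_smul (hs i)]
    exact hcon

/-- Interior points of `K` different from `p` are eventually interior points of `K_n`. -/
theorem eventually_interior {𝒰 : Filter ℕ} {K : Set E3} {Kn : ℕ → Set E3} {p : E3} {ε : ℕ → ℝ}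
    (hε : Tendsto ε 𝒰 (𝓝 0)) (hKn : ∀ᶠ n in 𝒰, K \ ball p (ε n) ⊆ Kn n)
    {q : E3} {qn : ℕ → E3} (hq : q ∈ interior K) (hqp : q ≠ p) (hqn : Tendsto qn 𝒰 (𝓝 q)) :
    ∀ᶠ n in 𝒰, qn n ∈ interior (Kn n) := by
  obtain ⟨δ, hδ, hδK⟩ := Metric.isOpen_iff.1 isOpen_interior q hq
  have hd : 0 < dist q p := dist_pos.2 hqp
  set δ' := min δ (dist q p / 2) with hδ'
  have hδ'0 : 0 < δ' := by positivity
  have h1 : ∀ᶠ n in 𝒰, ε n < dist q p / 2 := hε.eventually_lt_const (by positivity)
  have h2 : ∀ᶠ n in 𝒰, qn n ∈ ball q δ' := hqn (isOpen_ball.mem_nhds (mem_ball_self hδ'0))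
  filter_upwards [h1, h2, hKn] with n hn1 hn2 hn3
  rw [mem_interior]
  refine ⟨ball q δ', ?_, isOpen_ball, hn2⟩
  intro x hx
  rw [mem_ball] at hx
  apply hn3
  refine ⟨interior_subset (hδK ?_), ?_⟩
  · rw [mem_ball]
    exact lt_of_lt_of_le hx (min_le_left _ _)
  · rw [mem_ball]
    intro hxp
    have h3 : dist q p ≤ dist x q + dist x p := by
      rw [dist_comm x q]; exact dist_triangle _ _ _
    have h4 : δ' ≤ dist q p / 2 := min_le_right _ _
    linarith

/-- In an open nonempty set there are points avoiding two given points. -/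
theorem exists_avoid {O : Set E3} (hO : IsOpen O) (hne : O.Nonempty) (a b : E3) :
    ∃ z ∈ O, z ≠ a ∧ z ≠ b := by
  by_contra hcon
  push Not at hcon
  have h1 : O ⊆ {a, b} := by
    intro z hz
    by_cases h : z = a
    · exact Or.inl h
    · exact Or.inr (hcon z hz h)
  have h2 : 0 < volume O := hO.measure_pos volume hne
  have h3 : volume O ≤ volume ({a, b} : Set E3) := measure_mono h1
  have h4 : volume ({a, b} : Set E3) = 0 := (Set.toFinite _).measure_zero volume
  rw [h4] at h3
  exact absurd h2 (not_lt.2 h3)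

/-- The limit of packings of `K_n` is a packing of `K`. -/
theorem conf_limit {𝒰 : Ultrafilter ℕ} {K : Set E3} {Kn : ℕ → Set E3} {p : E3} {ε : ℕ → ℝ}
    (hε : Tendsto ε 𝒰 (𝓝 0)) (hKn : ∀ᶠ n in (𝒰 : Filter ℕ), K \ ball p (ε n) ⊆ Kn n)
    {s : ι → ℝ} (hs : ∀ i, s i = 1 ∨ s i = -1)
    {L : ℕ → Submodule ℤ E3} {vn : ℕ → ι → E3}
    (hconf : ∀ᶠ n in (𝒰 : Filter ℕ), Conf (Kn n) s (L n) (vn n)) {v : ι → E3}
    (hv : ∀ i, Tendsto (fun n => vn n i) 𝒰 (𝓝 (v i))) :
    Conf K s (limLat 𝒰 L) v := by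
  rintro i j w ⟨wn, hwn, hww⟩ hne z hz1 hz2
  -- move `z` away from the two bad positions
  have hc1 : Continuous fun z : E3 => s i • (z - v i) := by fun_prop
  have hc2 : Continuous fun z : E3 => s j • (z - (w + v j)) := by fun_prop
  have hO : IsOpen ((fun z : E3 => s i • (z - v i)) ⁻¹' interior K ∩
      (fun z : E3 => s j • (z - (w + v j))) ⁻¹' interior K) :=
    (isOpen_interior.preimage hc1).inter (isOpen_interior.preimage hc2)
  obtain ⟨z', ⟨hz1', hz2'⟩, ha, hb⟩ := exists_avoid hO ⟨z, hz1, hz2⟩ (v i + s i • p)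
    (w + v j + s j • p)
  have hq1 : s i • (z' - v i) ≠ p := by
    intro h
    apply ha
    rw [← h, sign_smul_smul (hs i)]
    abel
  have hq2 : s j • (z' - (w + v j)) ≠ p := by
    intro h
    apply hb
    rw [← h, sign_smul_smul (hs j)]
    abel
  have e1 := eventually_interior hε hKn hz1' hq1
    (qn := fun n => s i • (z' - vn n i)) ((tendsto_const_nhds.sub (hv i)).const_smul (s i))
  have e2 := eventually_interior hε hKn hz2' hq2
    (qn := fun n => s j • (z' - (wn n + vn n j)))
    ((tendsto_const_nhds.sub (hww.add (hv j))).const_smul (s j))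
  have e3 : ∀ᶠ n in (𝒰 : Filter ℕ), (i ≠ j ∨ wn n ≠ 0) := by
    rcases hne with h | h
    · exact Eventually.of_forall (fun _ => Or.inl h)
    · exact (hww.eventually_ne h).mono (fun _ => Or.inr)
  obtain ⟨n, hn1, hn2, hn3, hn4⟩ := (e1.and (e2.and (e3.and hconf))).exists
  exact hn4 i j (wn n) (hwn n) hn3 z' hn1 hn2

/-- Changing the representatives of the cosets. -/
theorem Conf.shift {K : Set E3} {s : ι → ℝ} {Λ : Submodule ℤ E3} {v : ι → E3}
    (h : Conf K s Λ v) {w : ι → E3} (hw : ∀ i, w i ∈ Λ) : Conf K s Λ (fun i => v i - w i) := by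
  classical
  intro i j u hu hne z hz1 hz2
  refine h i j (u - w j + w i) (Λ.add_mem (Λ.sub_mem hu (hw j)) (hw i)) ?_ (z + w i) ?_ ?_
  · rcases hne with h' | h'
    · exact Or.inl h'
    · by_cases hij : i = j
      · subst hij
        right
        rw [sub_add_cancel]
        exact h'
      · exact Or.inl hij
  · have e : z + w i - v i = z - (v i - w i) := by abel
    rw [e]
    exact hz1
  · have e : z + w i - (u - w j + w i + v j) = z - (u + (v j - w j)) := by abel
    rw [e]
    exact hz2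

/-- If the copies of `K'` form a packing but the copies of `K` do not, and `K'` differs from `K`
only near `p`, then two copies of `K` meet near `p`. -/
theorem exists_touch {K K' : Set E3} {p : E3} {ε : ℝ} (hcut : K \ ball p ε ⊆ K')
    {s : ι → ℝ} (hs : ∀ i, s i = 1 ∨ s i = -1) {Λ : Submodule ℤ E3} {v : ι → E3}
    (h' : Conf K' s Λ v) (h : ¬ Conf K s Λ v) :
    ∃ i j, ∃ u ∈ Λ, (i ≠ j ∨ u ≠ 0) ∧ ∃ y ∈ ball p ε, Touch K s v y i j u := by
  unfold Conf NO at h
  push Not at h
  obtain ⟨i, j, u, hu, hne, z, hz1, hz2, -⟩ := h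
  have hz1 : s i • (z - v i) ∈ interior K := hz1
  have hz2 : s j • (z - (u + v j)) ∈ interior K := hz2
  have hc1 : Continuous fun z : E3 => s i • (z - v i) := by fun_prop
  have hc2 : Continuous fun z : E3 => s j • (z - (u + v j)) := by fun_prop
  set O := (fun z : E3 => s i • (z - v i)) ⁻¹' interior K ∩
      (fun z : E3 => s j • (z - (u + v j))) ⁻¹' interior K with hOdef
  have hO : IsOpen O := (isOpen_interior.preimage hc1).inter (isOpen_interior.preimage hc2)
  have hzO : z ∈ O := ⟨hz1, hz2⟩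
  -- some point of `O` is outside one of the two copies of `K'`
  have key : ∃ z ∈ O, s i • (z - v i) ∉ K' ∨ s j • (z - (u + v j)) ∉ K' := by
    by_contra hcon
    push Not at hcon
    refine h' i j u hu hne z ?_ ?_
    · rw [mem_interior]
      refine ⟨(fun y : E3 => v i + s i • y) ⁻¹' O, ?_, hO.preimage (by fun_prop), ?_⟩
      · intro y hy
        have h1 := (hcon _ hy).1
        rwa [add_sub_cancel_left, sign_smul_smul (hs i)] at h1
      · rw [Set.mem_preimage, sign_smul_smul (hs i), add_sub_cancel]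
        exact hzO
    · rw [mem_interior]
      refine ⟨(fun y : E3 => (u + v j) + s j • y) ⁻¹' O, ?_, hO.preimage (by fun_prop), ?_⟩
      · intro y hy
        have h1 := (hcon _ hy).2
        rwa [add_sub_cancel_left, sign_smul_smul (hs j)] at h1
      · rw [Set.mem_preimage, sign_smul_smul (hs j), add_sub_cancel]
        exact hzO
  obtain ⟨z, ⟨hz1, hz2⟩, hz3⟩ := key
  rcases hz3 with hz3 | hz3
  · refine ⟨i, j, u, hu, hne, s i • (z - v i), ?_, ?_⟩
    · by_contra hb
      exact hz3 (hcut ⟨interior_subset hz1, hb⟩)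
    · unfold Touch
      rw [sign_smul_smul (hs i), add_sub_cancel]
      exact interior_subset hz2
  · refine ⟨j, i, -u, Λ.neg_mem hu, ?_, s j • (z - (u + v j)), ?_, ?_⟩
    · rcases hne with h1 | h1
      · exact Or.inl h1.symm
      · exact Or.inr (neg_ne_zero.2 h1)
    · by_contra hb
      exact hz3 (hcut ⟨interior_subset hz2, hb⟩)
    · unfold Touch
      rw [sign_smul_smul (hs j)]
      have e : v j + (z - (u + v j)) - (-u + v i) = z - v i := by abel
      rw [e]
      exact interior_subset hz1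

end Pool.Agent.Helper69.MD
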