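import Pool.Agent.Helper69.MD.Main

/-!
# The contact theorem for periodic packings with a given sign pattern
-/

set_option autoImplicit false
namespace Pool.Agent.Helper69.MD
open MeasureTheory Filter Topology Metric
open scoped Pointwise ENNReal

variable {ι : Type*}

/-- A packing of a slightly smaller body which is denser than every packing of `K`. -/
theorem exists_dense_conf [Fintype ι] [Nonempty ι] {s : ι → ℝ}
    (hs : ∀ i, s i = 1 ∨ s i = -1) {K K' : Set E3} (hK : IsConvexBody K)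
    (hvol : volume K' < volume K) (h0 : dg s K ≠ 0) (hmin : dg s K ≤ dg s K') :
    ∃ (Λ : Submodule ℤ E3) (_ : DiscreteTopology Λ) (_ : IsZLattice ℝ Λ) (v : ι → E3),
      Conf K' s Λ v ∧ ¬ Conf K s Λ v ∧
      ENNReal.ofReal (ZLattice.covolume Λ) ≤ (Fintype.card ι : ℝ≥0∞) * volume K / dg s K := by
  have htop := dg_ne_top hs hK
  have hb0 : volume K ≠ 0 := hK.volume_pos.ne'
  have hbt : volume K ≠ ⊤ := hK.volume_ne_top
  have hlt : dg s K * (volume K' / volume K) < dg s K' := by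
    refine lt_of_lt_of_le ?_ hmin
    have h1 : volume K' / volume K < 1 := by
      rw [ENNReal.div_lt_iff (Or.inl hb0) (Or.inl hbt), one_mul]
      exact hvol
    calc dg s K * (volume K' / volume K) < dg s K * 1 :=
          (ENNReal.mul_lt_mul_iff_right h0 htop).2 h1
      _ = dg s K := mul_one _
  unfold dg at hlt
  simp only [lt_iSup_iff] at hlt
  obtain ⟨Λ, h1, h2, v, hconf, hlt⟩ := hlt
  change dg s K * (volume K' / volume K) < _ at hlt
  have hcpos : 0 < ZLattice.covolume Λ := ZLattice.covolume_pos Λ volume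
  set c := ENNReal.ofReal (ZLattice.covolume Λ) with hc
  have hc0 : c ≠ 0 := (ENNReal.ofReal_pos.2 hcpos).ne'
  have hct : c ≠ ⊤ := ENNReal.ofReal_ne_top
  have hgt : dg s K < (Fintype.card ι : ℝ≥0∞) * volume K / c := by
    by_contra hcon
    push Not at hcon
    have e : (Fintype.card ι : ℝ≥0∞) * volume K' / c =
        ((Fintype.card ι : ℝ≥0∞) * volume K / c) * (volume K' / volume K) := by
      simp only [div_eq_mul_inv]
      calc (Fintype.card ι : ℝ≥0∞) * volume K' * c⁻¹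
          = (Fintype.card ι : ℝ≥0∞) * volume K' * c⁻¹ * 1 := (mul_one _).symm
        _ = (Fintype.card ι : ℝ≥0∞) * volume K' * c⁻¹ * (volume K * (volume K)⁻¹) := by
            rw [ENNReal.mul_inv_cancel hb0 hbt]
        _ = _ := by ring
    rw [e] at hlt
    exact absurd hlt (not_lt.2 (by gcongr))
  refine ⟨Λ, h1, h2, v, hconf, fun h => absurd (le_dg Λ h) (not_le.2 hgt), ?_⟩
  rw [ENNReal.le_div_iff_mul_le (Or.inl h0) (Or.inl htop), mul_comm]
  rw [ENNReal.lt_div_iff_mul_lt (Or.inl hc0) (Or.inl hct)] at hgt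
  exact hgt.le

theorem contact [Fintype ι] [Nonempty ι] {s : ι → ℝ} (hs : ∀ i, s i = 1 ∨ s i = -1)
    {K : Set E3} (hK : IsConvexBody K) (h0 : dg s K ≠ 0)
    {p : E3} (hp : p ∈ K.extremePoints ℝ) {ε₁ : ℝ} (hε₁ : 0 < ε₁)
    (hmin : ∀ K', IsConvexBody K' → K' ⊆ K → K \ ball p ε₁ ⊆ K' → dg s K ≤ dg s K') :
    ∃ (Λ : Submodule ℤ E3) (_ : DiscreteTopology Λ) (_ : IsZLattice ℝ Λ) (v : ι → E3),
      Conf K s Λ v ∧
      (Fintype.card ι : ℝ≥0∞) * volume K / ENNReal.ofReal (ZLattice.covolume Λ) = dg s K ∧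
      ∃ i j, ∃ u ∈ Λ, (i ≠ j ∨ u ≠ 0) ∧ Touch K s v p i j u := by
  have htop := dg_ne_top hs hK
  obtain ⟨x₀, η, ε₂, hη, hε₂, hcut⟩ := cut hK hp
  set ε₀ := min ε₁ ε₂ with hε₀def
  have hε₀ : 0 < ε₀ := by positivity
  let ε : ℕ → ℝ := fun n => ε₀ / (n + 1)
  have hεpos : ∀ n, 0 < ε n := fun n => by simp only [ε]; positivity
  have hεle : ∀ n, ε n ≤ ε₀ := fun n => by
    simp only [ε]
    rw [div_le_iff₀ (by positivity)]
    nlinarith [(Nat.cast_nonneg n : (0 : ℝ) ≤ n)]
  choose Kn hKn hKnK hKncut hKnvol hKnball using fun n =>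
    hcut (ε n) (hεpos n) ((hεle n).trans (min_le_right _ _))
  have hsub1 : ∀ n, K \ ball p ε₁ ⊆ Kn n := fun n x hx => hKncut n
    ⟨hx.1, fun h => hx.2 (ball_subset_ball ((hεle n).trans (min_le_left _ _)) h)⟩
  choose L hL1 hL2 vn hconf hnconf hcovol using fun n =>
    exists_dense_conf hs hK (hKnvol n) h0 (hmin _ (hKn n) (hKnK n) (hsub1 n))
  choose in' jn un hun hne yn hyn htouch using fun n =>
    exists_touch (hKncut n) hs (hconf n) (hnconf n)
  -- uniform bounds
  set Dn : ℝ≥0∞ := (Fintype.card ι : ℝ≥0∞) * volume K / dg s K with hDn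
  have hDtop : Dn ≠ ⊤ := ENNReal.div_ne_top
    (ENNReal.mul_ne_top (ENNReal.natCast_ne_top _) hK.volume_ne_top) h0
  set D : ℝ := Dn.toReal with hDdef
  have hcovD : ∀ n, ZLattice.covolume (L n) ≤ D := by
    intro n
    have h1 := ENNReal.toReal_mono hDtop (hcovol n)
    rwa [ENNReal.toReal_ofReal (ZLattice.covolume_pos (L n) volume).le] at h1
  have hD : 0 < D := lt_of_lt_of_le (ZLattice.covolume_pos (L 0) volume) (hcovD 0)
  have hsep : ∀ n, ∀ u ∈ L n, u ≠ 0 → η ≤ ‖u‖ := fun n => (hconf n).sep hs hη (hKnball n)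
  -- the ultrafilter
  let 𝒰 : Ultrafilter ℕ := hyperfilter ℕ
  have hle : (𝒰 : Filter ℕ) ≤ atTop := Nat.hyperfilter_le_atTop
  have hεlim : Tendsto ε 𝒰 (𝓝 0) := by
    have h1 : Tendsto ε atTop (𝓝 0) := by
      have h2 : Tendsto (fun n : ℕ => ε₀ / ((n : ℝ) + 1)) atTop (𝓝 0) :=
        tendsto_const_nhds.div_atTop
          (tendsto_atTop_add_const_right _ _ tendsto_natCast_atTop_atTop)
      exact h2
    exact h1.mono_left hle
  obtain ⟨hΛ1, hΛ2, hΛcov⟩ := limit_lattice 𝒰 L hD hη hsep hcovD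
  obtain ⟨B, hB⟩ := exists_reduction (𝒰 := 𝒰) hD hη hsep hcovD
  -- reduced shifts
  have hex : ∀ n, ∃ w : ι → E3, (∀ i, w i ∈ L n) ∧
      ((∀ x : E3, ∃ w ∈ L n, ‖x - w‖ ≤ B) → ∀ i, ‖vn n i - w i‖ ≤ B) := by
    intro n
    by_cases h : ∀ x : E3, ∃ w ∈ L n, ‖x - w‖ ≤ B
    · choose w hw1 hw2 using fun i => h (vn n i)
      exact ⟨w, hw1, fun _ => hw2⟩
    · exact ⟨fun _ => 0, fun _ => (L n).zero_mem, fun h' => absurd h' h⟩
  choose wn hwn hwnB using hex
  have hvb : ∀ᶠ n in (𝒰 : Filter ℕ), ∀ i, ‖vn n i - wn n i‖ ≤ B :=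
    hB.mono (fun n hn => hwnB n hn)
  have hv : ∀ i, ∃ x, Tendsto (fun n => vn n i - wn n i) 𝒰 (𝓝 x) := fun i =>
    ulim' 𝒰 (hvb.mono (fun n hn => hn i))
  choose v hv using hv
  have hconfΛ : Conf K s (limLat 𝒰 L) v :=
    conf_limit (𝒰 := 𝒰) hεlim (Eventually.of_forall hKncut) hs (L := L)
      (vn := fun n i => vn n i - wn n i)
      (Eventually.of_forall (fun n => (hconf n).shift (hwn n))) hv
  -- the limit packing is densest
  have hdens : (Fintype.card ι : ℝ≥0∞) * volume K /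
      ENNReal.ofReal (ZLattice.covolume (limLat 𝒰 L)) = dg s K := by
    refine le_antisymm (le_dg _ hconfΛ) ?_
    have hcp : 0 < ZLattice.covolume (limLat 𝒰 L) := ZLattice.covolume_pos _ volume
    rw [ENNReal.le_div_iff_mul_le (Or.inl (ENNReal.ofReal_pos.2 hcp).ne')
      (Or.inl ENNReal.ofReal_ne_top)]
    calc dg s K * ENNReal.ofReal (ZLattice.covolume (limLat 𝒰 L))
        ≤ dg s K * ENNReal.ofReal D := by gcongr
      _ = dg s K * Dn := by rw [hDdef, ENNReal.ofReal_toReal hDtop]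
      _ = (Fintype.card ι : ℝ≥0∞) * volume K := by
          rw [hDn, ENNReal.mul_div_cancel h0 htop]
  -- the contact
  obtain ⟨i, hi⟩ := eventually_const 𝒰 in'
  obtain ⟨j, hj⟩ := eventually_const 𝒰 jn
  let u' : ℕ → E3 := fun n => un n - wn n (in' n) + wn n (jn n)
  have hu' : ∀ n, u' n ∈ L n := fun n =>
    (L n).add_mem ((L n).sub_mem (hun n) (hwn n _)) (hwn n _)
  have htouch' : ∀ n, Touch K s (fun i => vn n i - wn n i) (yn n) (in' n) (jn n) (u' n) := by
    intro n
    have h1 := htouch n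
    unfold Touch at h1 ⊢
    have e : vn n (in' n) - wn n (in' n) + s (in' n) • yn n - (u' n + (vn n (jn n) - wn n (jn n))) =
        vn n (in' n) + s (in' n) • yn n - (un n + vn n (jn n)) := by
      simp only [u']
      abel
    rw [e]
    exact h1
  have hylim : Tendsto yn 𝒰 (𝓝 p) := by
    rw [tendsto_iff_dist_tendsto_zero]
    exact squeeze_zero (fun n => dist_nonneg) (fun n => (hyn n).le) hεlim
  obtain ⟨S, hS⟩ := hK.isCompact.isBounded.subset_closedBall (0 : E3)
  have hu'b : ∀ᶠ n in (𝒰 : Filter ℕ), ‖u' n‖ ≤ S + (B + (‖p‖ + 1)) + B := by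
    filter_upwards [hvb, hylim.norm.eventually_lt_const (lt_add_one _)] with n hn1 hn2
    have h1 := hS (htouch' n)
    rw [mem_closedBall_zero_iff, norm_sign_smul (hs _)] at h1
    have e : u' n = (vn n (in' n) - wn n (in' n) + s (in' n) • yn n) -
        (vn n (in' n) - wn n (in' n) + s (in' n) • yn n -
          (u' n + (vn n (jn n) - wn n (jn n)))) - (vn n (jn n) - wn n (jn n)) := by abel
    rw [e]
    have h2 : ‖vn n (in' n) - wn n (in' n) + s (in' n) • yn n‖ ≤ B + (‖p‖ + 1) := by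
      refine (norm_add_le _ _).trans (add_le_add (hn1 _) ?_)
      rw [norm_sign_smul (hs _)]
      exact hn2.le
    refine (norm_sub_le _ _).trans (add_le_add ((norm_sub_le _ _).trans ?_) (hn1 _))
    linarith
  obtain ⟨u, hu⟩ := ulim' 𝒰 hu'b
  refine ⟨limLat 𝒰 L, hΛ1, hΛ2, v, hconfΛ, hdens, i, j, u, ⟨u', hu', hu⟩, ?_, ?_⟩
  · by_cases hij : i = j
    · right
      have h1 : ∀ᶠ n in (𝒰 : Filter ℕ), η ≤ ‖u' n‖ := by
        filter_upwards [hi, hj] with n hn1 hn2
        have h2 : in' n = jn n := by rw [hn1, hn2, hij]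
        have h3 : u' n = un n := by
          simp only [u']
          rw [h2]
          abel
        rw [h3]
        rcases hne n with h4 | h4
        · exact absurd h2 h4
        · exact hsep n _ (hun n) h4
      have h5 : η ≤ ‖u‖ := ge_of_tendsto hu.norm h1
      intro h6
      rw [h6, norm_zero] at h5
      linarith
    · exact Or.inl hij
  · unfold Touch
    have h1 : Tendsto (fun n => s j • ((vn n i - wn n i) + s i • yn n -
        (u' n + (vn n j - wn n j)))) 𝒰 (𝓝 (s j • (v i + s i • p - (u + v j)))) :=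
      ((((hv i).add (hylim.const_smul (s i))).sub (hu.add (hv j))).const_smul (s j))
    refine hK.isCompact.isClosed.mem_of_tendsto h1 ?_
    filter_upwards [hi, hj] with n hn1 hn2
    have h2 := htouch' n
    rw [hn1, hn2] at h2
    exact h2

end Pool.Agent.Helper69.MD
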