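import Pool.Agent.Helper69.MD.Dens

/-!
# Cutting off a small cap at an extreme point
-/

set_option autoImplicit false
namespace Pool.Agent.Helper69.MD
open MeasureTheory Filter Topology Metric
open scoped Pointwise ENNReal

theorem IsConvexBody.volume_pos {K : Set E3} (hK : IsConvexBody K) : 0 < volume K :=
  lt_of_lt_of_le (isOpen_interior.measure_pos volume hK.interior_nonempty)
    (measure_mono interior_subset)

theorem IsConvexBody.volume_ne_top {K : Set E3} (hK : IsConvexBody K) : volume K ≠ ⊤ :=
  hK.isCompact.measure_lt_top.ne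

/-- The convex hull of a compact set of `ℝ³` is compact (Carathéodory). -/
theorem isCompact_convexHull_of_isCompact {s : Set E3} (hs : IsCompact s) :
    IsCompact (convexHull ℝ s) := by
  have himg : convexHull ℝ s = (fun q : (Fin 4 → ℝ) × (Fin 4 → E3) => ∑ i, q.1 i • q.2 i) ''
      (stdSimplex ℝ (Fin 4) ×ˢ (Set.univ.pi fun _ => s)) := by
    apply Set.Subset.antisymm
    · intro x hx
      obtain ⟨ι, hι, z, w, hz, hai, hw0, hw1, hx⟩ := eq_pos_convex_span_of_mem_convexHull hx
      have hcard : Fintype.card ι ≤ Fintype.card (Fin 4) := by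
        have h1 := hai.card_le_finrank_succ
        have h2 : Module.finrank ℝ (vectorSpan ℝ (Set.range z)) ≤ Module.finrank ℝ E3 :=
          Submodule.finrank_le _
        have h3 : Module.finrank ℝ E3 = 3 := finrank_euclideanSpace_fin
        rw [Fintype.card_fin]
        omega
      obtain ⟨e⟩ := Function.Embedding.nonempty_of_card_le hcard
      have hne : Nonempty ι := by
        by_contra h
        rw [not_nonempty_iff] at h
        rw [Fintype.sum_empty] at hw1
        exact zero_ne_one hw1
      obtain ⟨i₀⟩ := hne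
      have hew : ∀ i, Function.extend e w 0 (e i) = w i := fun i => e.injective.extend_apply _ _ _
      have hez : ∀ i, Function.extend e z (fun _ => z i₀) (e i) = z i :=
        fun i => e.injective.extend_apply _ _ _
      have hw' : ∀ j ∉ Set.range e, Function.extend e w 0 j = 0 := fun j hj =>
        Function.extend_apply' _ _ _ (fun ⟨i, hi⟩ => hj ⟨i, hi⟩)
      refine ⟨(Function.extend e w 0, Function.extend e z (fun _ => z i₀)), ⟨⟨?_, ?_⟩, ?_⟩, ?_⟩
      · intro j
        by_cases hj : j ∈ Set.range e
        · obtain ⟨i, rfl⟩ := hj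
          change 0 ≤ Function.extend e w 0 (e i)
          rw [hew]
          exact (hw0 i).le
        · exact (hw' j hj).ge
      · change ∑ j, Function.extend e w 0 j = 1
        rw [← hw1]
        exact (Fintype.sum_of_injective e e.injective w _ hw' (fun i => (hew i).symm)).symm
      · intro j _
        change Function.extend e z (fun _ => z i₀) j ∈ s
        by_cases hj : j ∈ Set.range e
        · obtain ⟨i, rfl⟩ := hj
          rw [hez]
          exact hz ⟨i, rfl⟩
        · rw [Function.extend_apply' _ _ _ (fun ⟨i, hi⟩ => hj ⟨i, hi⟩)]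
          exact hz ⟨i₀, rfl⟩
      · beta_reduce
        rw [← hx]
        refine (Fintype.sum_of_injective e e.injective _ _ (fun j hj => ?_) (fun i => ?_)).symm
        · dsimp only
          rw [hw' j hj, zero_smul]
        · dsimp only
          rw [hew, hez]
    · rintro x ⟨⟨w, z⟩, ⟨⟨hw0, hw1⟩, hz⟩, rfl⟩
      exact (convex_convexHull ℝ s).sum_mem (fun i _ => hw0 i) hw1
        (fun i _ => subset_convexHull ℝ s (hz i (Set.mem_univ i)))
  rw [himg]
  refine ((isCompact_stdSimplex ℝ (Fin 4)).prod (isCompact_univ_pi fun _ => hs)).image ?_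
  fun_prop

/-- Cutting off a small cap at an extreme point `p`. -/
theorem cut {K : Set E3} (hK : IsConvexBody K) {p : E3} (hp : p ∈ K.extremePoints ℝ) :
    ∃ (x₀ : E3) (η ε₀ : ℝ), 0 < η ∧ 0 < ε₀ ∧ ∀ ε, 0 < ε → ε ≤ ε₀ → ∃ K' : Set E3,
      IsConvexBody K' ∧ K' ⊆ K ∧ K \ ball p ε ⊆ K' ∧ volume K' < volume K ∧
      closedBall x₀ η ⊆ K' := by
  -- an interior point different from `p`
  obtain ⟨x₀, hx₀, hx₀p⟩ : ∃ x₀ ∈ interior K, x₀ ≠ p := by
    by_contra hcon
    push Not at hcon
    have h1 : interior K ⊆ {p} := fun x hx => hcon x hx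
    have h2 : 0 < volume (interior K) := isOpen_interior.measure_pos volume hK.interior_nonempty
    have h3 : volume (interior K) ≤ volume ({p} : Set E3) := measure_mono h1
    rw [measure_singleton] at h3
    exact absurd h2 (not_lt.2 h3)
  obtain ⟨η₁, hη₁, hball⟩ := Metric.isOpen_iff.1 isOpen_interior x₀ hx₀
  have hdist : 0 < dist x₀ p := dist_pos.2 hx₀p
  set η := min (η₁ / 2) (dist x₀ p / 2) with hη
  have hη0 : 0 < η := by positivity
  refine ⟨x₀, η, dist x₀ p / 2, hη0, by positivity, fun ε hε hε₀ => ?_⟩
  have hcb : closedBall x₀ η ⊆ K \ ball p ε := by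
    intro x hx
    rw [mem_closedBall] at hx
    refine ⟨?_, ?_⟩
    · apply interior_subset
      apply hball
      rw [mem_ball]
      calc dist x x₀ ≤ η := hx
        _ ≤ η₁ / 2 := min_le_left _ _
        _ < η₁ := by linarith
    · rw [mem_ball]
      intro hxp
      have h1 : dist x₀ p ≤ dist x x₀ + dist x p := by
        rw [dist_comm x x₀]; exact dist_triangle _ _ _
      have h2 : η ≤ dist x₀ p / 2 := min_le_right _ _
      linarith
  have hcomp : IsCompact (K \ ball p ε) := hK.isCompact.diff isOpen_ball
  have hcc := isCompact_convexHull_of_isCompact hcomp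
  have hsub : convexHull ℝ (K \ ball p ε) ⊆ K :=
    convexHull_min Set.sdiff_subset hK.convex
  have hpn : p ∉ convexHull ℝ (K \ ball p ε) := by
    intro h
    have h1 := inter_extremePoints_subset_extremePoints_of_subset (𝕜 := ℝ) hsub ⟨h, hp⟩
    have h2 := extremePoints_convexHull_subset h1
    exact h2.2 (mem_ball_self hε)
  refine ⟨convexHull ℝ (K \ ball p ε), ⟨convex_convexHull ℝ _, hcc, ?_⟩, hsub,
    subset_convexHull ℝ _, ?_, hcb.trans (subset_convexHull ℝ _)⟩
  · refine ⟨x₀, ?_⟩
    rw [mem_interior]
    exact ⟨ball x₀ η, (ball_subset_closedBall.trans hcb).trans (subset_convexHull ℝ _),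
      isOpen_ball, mem_ball_self hη0⟩
  · have hclosed : IsClosed (convexHull ℝ (K \ ball p ε)) := hcc.isClosed
    obtain ⟨δ, hδ, hδb⟩ := Metric.isOpen_iff.1 hclosed.isOpen_compl p hpn
    have hpc : p ∈ closure (interior K) := by
      rw [hK.convex.closure_interior_eq_closure_of_nonempty_interior hK.interior_nonempty,
        hK.isCompact.isClosed.closure_eq]
      exact hp.1
    obtain ⟨q, hq, hqp⟩ := Metric.mem_closure_iff.1 hpc δ hδ
    have hO : IsOpen (interior K ∩ ball p δ) := isOpen_interior.inter isOpen_ball
    have hOpos : 0 < volume (interior K ∩ ball p δ) := by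
      refine hO.measure_pos volume ⟨q, hq, ?_⟩
      rw [mem_ball, dist_comm]
      exact hqp
    have hdisj : Disjoint (convexHull ℝ (K \ ball p ε)) (interior K ∩ ball p δ) := by
      rw [Set.disjoint_left]
      intro x hx hx'
      exact hδb hx'.2 hx
    have hle : volume (convexHull ℝ (K \ ball p ε)) + volume (interior K ∩ ball p δ) ≤
        volume K := by
      rw [← measure_union hdisj hO.measurableSet]
      exact measure_mono (Set.union_subset hsub (Set.inter_subset_left.trans interior_subset))
    have hfin : volume (convexHull ℝ (K \ ball p ε)) ≠ ⊤ := hcc.measure_lt_top.ne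
    calc volume (convexHull ℝ (K \ ball p ε))
        < volume (convexHull ℝ (K \ ball p ε)) + volume (interior K ∩ ball p δ) :=
          ENNReal.lt_add_right hfin hOpos.ne'
      _ ≤ volume K := hle

end Pool.Agent.Helper69.MD
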