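import Pool.Agent.Helper69.MD.Contact

/-!
# The classes of `δ_L` and `δ_{L*}`
-/

set_option autoImplicit false
namespace Pool.Agent.Helper69.MD
open MeasureTheory Filter Topology Metric
open scoped Pointwise ENNReal

/-! ## Existence of packings -/

theorem NO_of_far {K : Set E3} {S : ℝ} (hS : K ⊆ closedBall 0 S) {s t : ℝ} (hs : s = 1 ∨ s = -1)
    (ht : t = 1 ∨ t = -1) {x y : E3} (h : 2 * S < ‖x - y‖) : NO K s x t y := by
  intro z h1 h2
  have h3 := hS (interior_subset h1)
  have h4 := hS (interior_subset h2)
  rw [mem_closedBall_zero_iff, norm_sign_smul hs] at h3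
  rw [mem_closedBall_zero_iff, norm_sign_smul ht] at h4
  have e : x - y = (z - y) - (z - x) := by abel
  have h5 : ‖x - y‖ ≤ ‖z - y‖ + ‖z - x‖ := by
    rw [e]; exact norm_sub_le _ _
  linarith

/-- The lattice `N ℤ³`. -/
def cubic (N : ℝ) : Submodule ℤ E3 where
  carrier := {x | ∀ i, ∃ m : ℤ, x i = m * N}
  add_mem' := by
    intro x y hx hy i
    obtain ⟨m, hm⟩ := hx i
    obtain ⟨n, hn⟩ := hy i
    refine ⟨m + n, ?_⟩
    rw [PiLp.add_apply, hm, hn]
    push_cast
    ring
  zero_mem' := fun i => ⟨0, by simp⟩
  smul_mem' := by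
    intro k x hx i
    obtain ⟨m, hm⟩ := hx i
    refine ⟨k * m, ?_⟩
    rw [PiLp.smul_apply, hm, zsmul_eq_mul]
    push_cast
    ring

theorem cubic_sep {N : ℝ} (hN : 0 < N) : ∀ x ∈ cubic N, x ≠ 0 → N ≤ ‖x‖ := by
  intro x hx hx0
  have h1 : ∃ i, x i ≠ 0 := by
    by_contra hcon
    push Not at hcon
    exact hx0 (by ext i; simpa using hcon i)
  obtain ⟨i, hi⟩ := h1
  obtain ⟨m, hm⟩ := hx i
  have hm0 : m ≠ 0 := by
    rintro rfl
    apply hi
    rw [hm]
    simp
  calc N = 1 * N := (one_mul _).symm
    _ ≤ |(m : ℝ)| * N := by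
        gcongr
        exact_mod_cast Int.one_le_abs hm0
    _ = ‖x i‖ := by rw [hm, Real.norm_eq_abs, abs_mul, abs_of_pos hN]
    _ ≤ ‖x‖ := PiLp.norm_apply_le x i

theorem cubic_discrete {N : ℝ} (hN : 0 < N) : DiscreteTopology (cubic N) :=
  discrete_of_sep hN (cubic_sep hN)

theorem cubic_lattice {N : ℝ} (hN : 0 < N) [DiscreteTopology (cubic N)] :
    IsZLattice ℝ (cubic N) := by
  refine ⟨?_⟩
  rw [eq_top_iff, ← (EuclideanSpace.basisFun (Fin 3) ℝ).toBasis.span_eq, Submodule.span_le]
  rintro _ ⟨i, rfl⟩
  have h1 : N • EuclideanSpace.single i (1 : ℝ) ∈ (cubic N : Set E3) := by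
    intro j
    by_cases h : j = i
    · subst h
      exact ⟨1, by simp⟩
    · exact ⟨0, by simp [h]⟩
  have h2 : ((EuclideanSpace.basisFun (Fin 3) ℝ).toBasis i : E3) =
      N⁻¹ • (N • EuclideanSpace.single i (1 : ℝ)) := by
    rw [smul_smul, inv_mul_cancel₀ hN.ne', one_smul]
    simp
  rw [h2]
  exact Submodule.smul_mem _ _ (Submodule.subset_span h1)

theorem dg_ne_zero_of_conf {ι : Type*} [Fintype ι] [Nonempty ι] {s : ι → ℝ} {K : Set E3}
    (hK : IsConvexBody K) (Λ : Submodule ℤ E3) [DiscreteTopology Λ] [IsZLattice ℝ Λ] {v : ι → E3}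
    (h : Conf K s Λ v) : dg s K ≠ 0 := by
  refine (lt_of_lt_of_le ?_ (le_dg Λ h)).ne'
  refine ENNReal.div_pos ?_ ENNReal.ofReal_ne_top
  exact mul_ne_zero (by exact_mod_cast Fintype.card_ne_zero) hK.volume_pos.ne'

/-- The sign pattern of `δ_L`. -/
def sU : Unit → ℝ := fun _ => 1

/-- The sign pattern of `δ_{L*}`. -/
noncomputable def sB : Bool → ℝ := fun b => if b then -1 else 1

theorem sU_sign : ∀ i, sU i = 1 ∨ sU i = -1 := fun _ => Or.inl rfl

theorem sB_sign : ∀ i, sB i = 1 ∨ sB i = -1 := by
  intro i
  cases i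
  · left; simp [sB]
  · right; simp [sB]

theorem dg_sU_ne_zero {K : Set E3} (hK : IsConvexBody K) : dg sU K ≠ 0 := by
  obtain ⟨S, hS⟩ := hK.isCompact.isBounded.subset_closedBall (0 : E3)
  set N : ℝ := 2 * |S| + 1 with hN
  have hN0 : 0 < N := by positivity
  have h1 := cubic_discrete hN0
  have h2 := cubic_lattice hN0
  refine dg_ne_zero_of_conf hK (cubic N) (v := fun _ => 0) ?_
  rintro ⟨⟩ ⟨⟩ u hu hne
  have hu0 : u ≠ 0 := by
    rcases hne with h | h
    · exact absurd rfl h
    · exact h
  refine NO_of_far hS (sU_sign _) (sU_sign _) ?_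
  have e : (0 : E3) - (u + 0) = -u := by abel
  rw [e, norm_neg]
  have h3 := cubic_sep hN0 u hu hu0
  have h4 := le_abs_self S
  linarith

theorem dg_sB_ne_zero {K : Set E3} (hK : IsConvexBody K) : dg sB K ≠ 0 := by
  obtain ⟨S, hS⟩ := hK.isCompact.isBounded.subset_closedBall (0 : E3)
  set N : ℝ := 4 * |S| + 2 with hN
  have hN0 : 0 < N := by positivity
  have h1 := cubic_discrete hN0
  have h2 := cubic_lattice hN0
  have hSa := le_abs_self S
  set w : E3 := (N / 2) • EuclideanSpace.single 0 (1 : ℝ) with hw
  have hw0 : w 0 = N / 2 := by simp [hw]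
  have hfar : ∀ u ∈ cubic N, ∀ t : ℝ, (t = 1 ∨ t = -1) → 2 * S < ‖t • w - u‖ := by
    intro u hu t ht
    obtain ⟨m, hm⟩ := hu 0
    have h3 : ‖(t • w - u) 0‖ ≤ ‖t • w - u‖ := PiLp.norm_apply_le _ 0
    refine lt_of_lt_of_le ?_ h3
    rw [PiLp.sub_apply, PiLp.smul_apply, hw0, hm, Real.norm_eq_abs]
    have h4 : |t • (N / 2) - m * N| = |t - 2 * m| * (N / 2) := by
      rw [smul_eq_mul, ← abs_of_pos (show 0 < N / 2 by positivity), ← abs_mul,
        abs_of_pos (show 0 < N / 2 by positivity)]
      congr 1
      ring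
    rw [h4]
    have h5 : (1 : ℝ) ≤ |t - 2 * m| := by
      rcases ht with h | h
      · rw [h]
        have h6 : (1 : ℤ) - 2 * m ≠ 0 := by omega
        exact_mod_cast Int.one_le_abs h6
      · rw [h]
        have h6 : (-1 : ℤ) - 2 * m ≠ 0 := by omega
        exact_mod_cast Int.one_le_abs h6
    calc 2 * S < 1 * (N / 2) := by rw [hN]; linarith
      _ ≤ |t - 2 * m| * (N / 2) := by gcongr
  refine dg_ne_zero_of_conf hK (cubic N) (v := fun b => if b then w else 0) ?_
  intro i j u hu hne
  refine NO_of_far hS (sB_sign _) (sB_sign _) ?_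
  cases i <;> cases j
  · have hu0 : u ≠ 0 := by simpa using hne
    have h3 := cubic_sep hN0 u hu hu0
    simp only [Bool.false_eq_true, if_false, add_zero, zero_sub, norm_neg]
    linarith
  · have h3 := hfar u hu (-1) (Or.inr rfl)
    simp only [Bool.false_eq_true, if_false, if_true]
    have e : (0 : E3) - (u + w) = (-1 : ℝ) • w - u := by
      rw [neg_one_smul]; abel
    rw [e]
    exact h3
  · have h3 := hfar u hu 1 (Or.inl rfl)
    simp only [Bool.false_eq_true, if_false, if_true]
    have e : w - (u + 0) = (1 : ℝ) • w - u := by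
      rw [one_smul]; abel
    rw [e]
    exact h3
  · have hu0 : u ≠ 0 := by simpa using hne
    have h3 := cubic_sep hN0 u hu hu0
    simp only [if_true]
    have e : w - (u + w) = -u := by abel
    rw [e, norm_neg]
    linarith

/-! ## Comparison with the definitions of the problem -/

theorem mem_interior_vadd {u z : E3} {A : Set E3} :
    z ∈ interior (u +ᵥ A) ↔ z - u ∈ interior A := by
  rw [interior_vadd, Set.mem_vadd_set_iff_neg_vadd_mem, vadd_eq_add]
  rw [show -u + z = z - u by abel]

theorem mem_interior_neg {z : E3} {A : Set E3} : z ∈ interior (-A) ↔ -z ∈ interior A := by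
  have h : interior (-A) = -interior A := by
    have := (Homeomorph.neg E3).preimage_interior A
    simpa using this.symm
  rw [h, Set.mem_neg]

theorem isPacking_iff_conf {K : Set E3} {Λ : Submodule ℤ E3} {v : Unit → E3} :
    IsPacking K Λ ↔ Conf K sU Λ v := by
  constructor
  · rintro h ⟨⟩ ⟨⟩ u hu hne z h1 h2
    have hu0 : u ≠ 0 := by
      rcases hne with h' | h'
      · exact absurd rfl h'
      · exact h'
    have h3 := h 0 Λ.zero_mem u hu hu0.symm
    rw [Set.disjoint_left] at h3
    refine h3 (a := z - v ()) ?_ ?_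
    · rw [mem_interior_vadd, sub_zero]
      simpa [sU] using h1
    · rw [mem_interior_vadd]
      have e : z - v () - u = z - (u + v ()) := by abel
      rw [e]
      simpa [sU] using h2
  · intro h u hu w hw huw
    rw [Set.disjoint_left]
    intro z h1 h2
    rw [mem_interior_vadd] at h1 h2
    refine h () () (w - u) (Λ.sub_mem hw hu) (Or.inr (sub_ne_zero.2 huw.symm)) (z - u + v ()) ?_ ?_
    · have e : z - u + v () - v () = z - u := by abel
      rw [e]
      simpa [sU] using h1
    · have e : z - u + v () - (w - u + v ()) = z - w := by abel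
      rw [e]
      simpa [sU] using h2

theorem deltaL_eq {K : Set E3} (hK : IsConvexBody K) : deltaL K = dg sU K := by
  have hb : Bornology.IsBounded K := hK.isCompact.isBounded
  apply le_antisymm
  · unfold deltaL
    refine iSup_le fun Λ => iSup_le fun h1 => iSup_le fun h2 => iSup_le fun h => ?_
    have h3 := le_dg Λ (isPacking_iff_conf (v := fun _ => 0) |>.1 h)
    rw [density_eq hb]
    simpa using h3
  · unfold dg
    refine iSup_le fun Λ => iSup_le fun h1 => iSup_le fun h2 => iSup_le fun v => iSup_le fun h => ?_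
    have h3 : density K Λ ≤ deltaL K := by
      unfold deltaL
      exact le_iSup_of_le Λ (le_iSup_of_le h1 (le_iSup_of_le h2 (le_iSup_of_le
        (isPacking_iff_conf.2 h) le_rfl)))
    rw [density_eq hb] at h3
    simpa using h3

theorem body_neg_shift {K : Set E3} (hK : IsConvexBody K) (v : E3) : IsConvexBody (v +ᵥ -K) := by
  refine ⟨?_, ?_, ?_⟩
  · exact hK.convex.neg.vadd v
  · exact hK.isCompact.neg.vadd v
  · obtain ⟨x, hx⟩ := hK.interior_nonempty
    refine ⟨v - x, ?_⟩
    rw [mem_interior_vadd, mem_interior_neg]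
    simpa using hx

theorem conf_translate {K : Set E3} {Λ : Submodule ℤ E3} {v : Bool → E3} :
    Conf K sB Λ v ↔ Conf K sB Λ (fun b => if b then v true - v false else 0) := by
  have e : (fun b : Bool => if b then v true - v false else 0) = fun b => v b - v false := by
    funext b
    cases b <;> simp
  rw [e]
  constructor
  · intro h i j u hu hne z h1 h2
    refine h i j u hu hne (z + v false) ?_ ?_
    · rw [show z + v false - v i = z - (v i - v false) by abel]
      exact h1
    · rw [show z + v false - (u + v j) = z - (u + (v j - v false)) by abel]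
      exact h2
  · intro h i j u hu hne z h1 h2
    refine h i j u hu hne (z - v false) ?_ ?_
    · rw [show z - v false - (v i - v false) = z - v i by abel]
      exact h1
    · rw [show z - v false - (u + (v j - v false)) = z - (u + v j) by abel]
      exact h2

/-- A point of a closed set outside its frontier is an interior point. -/
theorem mem_interior_of_notMem_frontier {A : Set E3} (hA : IsClosed A) {z : E3} (hz : z ∈ A)
    (hf : z ∉ frontier A) : z ∈ interior A := by
  rw [hA.frontier_eq] at hf
  by_contra h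
  exact hf ⟨hz, h⟩

theorem packing_star_iff {K : Set E3} (hK : IsConvexBody K) {Λ : Submodule ℤ E3} {v : E3} :
    (Disjoint (interior K) (interior (v +ᵥ -K)) ∧ IsPacking (K ∪ (v +ᵥ -K)) Λ) ↔
      Conf K sB Λ (fun b => if b then v else 0) := by
  constructor
  · rintro ⟨hd, hp⟩ i j u hu hne z h1 h2
    have hsub : ∀ x : E3, x ∈ interior K ∨ x ∈ interior (v +ᵥ -K) →
        x ∈ interior (K ∪ (v +ᵥ -K)) := by
      rintro x (hx | hx)
      · exact interior_mono Set.subset_union_left hx
      · exact interior_mono Set.subset_union_right hx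
    -- membership of a point in the copies
    have hc : ∀ (i : Bool) (y : E3), sB i • (y - (if i then v else 0)) ∈ interior K →
        y ∈ interior K ∨ y ∈ interior (v +ᵥ -K) := by
      intro i y hy
      cases i
      · left
        simpa [sB] using hy
      · right
        rw [mem_interior_vadd, mem_interior_neg]
        simpa [sB] using hy
    have h1' := hc i z h1
    have h2' := hc j (z - u) (by
      have e : z - u - (if j then v else 0) = z - (u + (if j then v else 0)) := by abel
      rw [e]
      exact h2)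
    by_cases hu0 : u = 0
    · subst hu0
      have hij : i ≠ j := by
        rcases hne with h | h
        · exact h
        · exact absurd rfl h
      rw [Set.disjoint_left] at hd
      cases i <;> cases j
      · exact hij rfl
      · refine hd (a := z) ?_ ?_
        · simpa [sB] using h1
        · rw [mem_interior_vadd, mem_interior_neg]
          simpa [sB] using h2
      · refine hd (a := z) ?_ ?_
        · simpa [sB] using h2
        · rw [mem_interior_vadd, mem_interior_neg]
          simpa [sB] using h1
      · exact hij rfl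
    · have h3 := hp 0 Λ.zero_mem u hu (fun h => hu0 h.symm)
      rw [Set.disjoint_left] at h3
      refine h3 (a := z) ?_ ?_
      · rw [mem_interior_vadd, sub_zero]
        exact hsub z h1'
      · rw [mem_interior_vadd]
        exact hsub _ h2'
  · intro h
    have hbody := body_neg_shift hK v
    refine ⟨?_, ?_⟩
    · rw [Set.disjoint_left]
      intro z h1 h2
      rw [mem_interior_vadd, mem_interior_neg] at h2
      refine h false true 0 Λ.zero_mem (Or.inl (by simp)) z ?_ ?_
      · simpa [sB] using h1
      · simpa [sB] using h2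
    · intro u hu w hw huw
      rw [Set.disjoint_left]
      intro z₀ hz1 hz2
      -- avoid the four boundaries
      set O := interior (u +ᵥ (K ∪ (v +ᵥ -K))) ∩ interior (w +ᵥ (K ∪ (v +ᵥ -K))) with hO
      have hOo : IsOpen O := isOpen_interior.inter isOpen_interior
      have hOpos : 0 < volume O := hOo.measure_pos volume ⟨z₀, hz1, hz2⟩
      have hvf : ∀ (x : E3) (A : Set E3), IsConvexBody A → volume (frontier (x +ᵥ A)) = 0 :=
        fun x A hA => (hA.convex.vadd x).addHaar_frontier volume
      have hnull : volume (frontier (u +ᵥ K) ∪ frontier (u +ᵥ (v +ᵥ -K)) ∪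
          (frontier (w +ᵥ K) ∪ frontier (w +ᵥ (v +ᵥ -K)))) = 0 := by
        rw [measure_union_null_iff, measure_union_null_iff, measure_union_null_iff]
        exact ⟨⟨hvf u K hK, hvf u _ hbody⟩, hvf w K hK, hvf w _ hbody⟩
      obtain ⟨z, hzO, hzn⟩ : ∃ z ∈ O, z ∉ (frontier (u +ᵥ K) ∪ frontier (u +ᵥ (v +ᵥ -K)) ∪
          (frontier (w +ᵥ K) ∪ frontier (w +ᵥ (v +ᵥ -K)))) := by
        by_contra hcon
        push Not at hcon
        have h3 := measure_mono (μ := volume) (show O ⊆ _ from fun z hz => hcon z hz)
        rw [hnull] at h3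
        exact absurd hOpos (not_lt.2 h3)
      simp only [Set.mem_union, not_or] at hzn
      obtain ⟨⟨hn1, hn2⟩, hn3, hn4⟩ := hzn
      have hcl : ∀ x : E3, IsClosed (x +ᵥ K) := fun x => (hK.isCompact.vadd x).isClosed
      have hcl' : ∀ x : E3, IsClosed (x +ᵥ (v +ᵥ -K)) := fun x =>
        (hbody.isCompact.vadd x).isClosed
      -- the copy which contains `z`
      have hloc : ∀ x : E3, z ∈ interior (x +ᵥ (K ∪ (v +ᵥ -K))) → z ∉ frontier (x +ᵥ K) →
          z ∉ frontier (x +ᵥ (v +ᵥ -K)) →
          ∃ i : Bool, sB i • (z - (x + if i then v else 0)) ∈ interior K := by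
        intro x hx hf1 hf2
        have h3 := interior_subset hx
        rw [Set.vadd_set_union] at h3
        rcases h3 with h3 | h3
        · refine ⟨false, ?_⟩
          have h4 := mem_interior_of_notMem_frontier (hcl x) h3 hf1
          rw [mem_interior_vadd] at h4
          simpa [sB] using h4
        · refine ⟨true, ?_⟩
          have h4 := mem_interior_of_notMem_frontier (hcl' x) h3 hf2
          rw [mem_interior_vadd, mem_interior_vadd, mem_interior_neg] at h4
          have e : -(z - x - v) = sB true • (z - (x + if true then v else 0)) := by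
            simp only [sB, if_true, neg_one_smul]
            abel
          rw [← e]
          exact h4
      obtain ⟨i, hi⟩ := hloc u hzO.1 hn1 hn2
      obtain ⟨j, hj⟩ := hloc w hzO.2 hn3 hn4
      refine h i j (w - u) (Λ.sub_mem hw hu) (Or.inr (sub_ne_zero.2 huw.symm)) (z - u) ?_ ?_
      · rw [show z - u - (if i then v else 0) = z - (u + if i then v else 0) by abel]
        exact hi
      · rw [show z - u - (w - u + if j then v else 0) = z - (w + if j then v else 0) by abel]
        exact hj

theorem volume_star {K : Set E3} (hK : IsConvexBody K) {v : E3}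
    (hd : Disjoint (interior K) (interior (v +ᵥ -K))) :
    volume (K ∪ (v +ᵥ -K)) = 2 * volume K := by
  have hbody := body_neg_shift hK v
  have h1 : volume (K ∩ (v +ᵥ -K)) = 0 := by
    refine measure_mono_null (t := frontier K ∪ frontier (v +ᵥ -K)) ?_ ?_
    · rintro z ⟨hz1, hz2⟩
      by_contra hcon
      rw [Set.mem_union, not_or] at hcon
      rw [Set.disjoint_left] at hd
      exact hd (mem_interior_of_notMem_frontier hK.isCompact.isClosed hz1 hcon.1)
        (mem_interior_of_notMem_frontier hbody.isCompact.isClosed hz2 hcon.2)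
    · rw [measure_union_null_iff]
      exact ⟨hK.convex.addHaar_frontier volume, hbody.convex.addHaar_frontier volume⟩
  have h2 := measure_union_add_inter (μ := volume) K hbody.isCompact.isClosed.measurableSet
  rw [h1, add_zero] at h2
  rw [h2, measure_vadd, Measure.measure_neg]
  ring

theorem deltaLstar_eq {K : Set E3} (hK : IsConvexBody K) : deltaLstar K = dg sB K := by
  have hb : ∀ v : E3, Bornology.IsBounded (K ∪ (v +ᵥ -K)) := fun v =>
    hK.isCompact.isBounded.union (body_neg_shift hK v).isCompact.isBounded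
  have hcard : ((Fintype.card Bool : ℕ) : ℝ≥0∞) = 2 := by simp
  apply le_antisymm
  · unfold deltaLstar
    refine iSup_le fun Λ => iSup_le fun h1 => iSup_le fun h2 => iSup_le fun v => iSup_le fun hd =>
      iSup_le fun hp => ?_
    have h3 := le_dg Λ ((packing_star_iff hK).1 ⟨hd, hp⟩)
    rw [density_eq (hb v), volume_star hK hd]
    rwa [hcard] at h3
  · unfold dg
    refine iSup_le fun Λ => iSup_le fun h1 => iSup_le fun h2 => iSup_le fun v => iSup_le fun h => ?_
    obtain ⟨hd, hp⟩ := (packing_star_iff hK).2 (conf_translate.1 h)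
    have h3 : density (K ∪ ((v true - v false) +ᵥ -K)) Λ ≤ deltaLstar K := by
      unfold deltaLstar
      exact le_iSup_of_le Λ (le_iSup_of_le h1 (le_iSup_of_le h2 (le_iSup_of_le _ (le_iSup_of_le hd
        (le_iSup_of_le hp le_rfl)))))
    rw [density_eq (hb _), volume_star hK hd] at h3
    rwa [hcard]

end Pool.Agent.Helper69.MD
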