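import Pool.Agent.Helper69.MD.Defs

/-!
# Counting points of lattices
-/

set_option autoImplicit false
namespace Pool.Agent.Helper69.MD
open MeasureTheory Filter Topology Metric
open scoped Pointwise ENNReal

theorem vol_cB {r : ℝ} (hr : 0 ≤ r) (c : E3) :
    volume (closedBall c r) = ENNReal.ofReal (r ^ 3) * volume (closedBall (0 : E3) 1) := by
  rw [Measure.addHaar_closedBall' volume c hr]
  simp

theorem vol_cB_ne_zero {r : ℝ} (hr : 0 < r) (c : E3) : volume (closedBall c r) ≠ 0 :=
  (measure_closedBall_pos volume _ hr).ne'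

theorem vol_cB_ne_top (r : ℝ) (c : E3) : volume (closedBall c r) ≠ ⊤ :=
  measure_closedBall_lt_top.ne

/-- A bounded measurable fundamental domain. -/
theorem exists_dom (Λ : Submodule ℤ E3) [DiscreteTopology Λ] [IsZLattice ℝ Λ] :
    ∃ F : Set E3, ∃ R : ℝ, 0 ≤ R ∧ IsAddFundamentalDomain Λ F volume ∧ MeasurableSet F ∧
      F ⊆ closedBall 0 R ∧ volume F = ENNReal.ofReal (ZLattice.covolume Λ) ∧
      (∀ x : E3, ∃ u : Λ, x ∈ (u : E3) +ᵥ F) := by
  let B := Module.Free.chooseBasis ℤ Λ
  have fund := ZLattice.isAddFundamentalDomain B volume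
  set F := ZSpan.fundamentalDomain (B.ofZLatticeBasis ℝ) with hF
  have hFm : MeasurableSet F := ZSpan.fundamentalDomain_measurableSet _
  obtain ⟨ρ, hρ⟩ := (ZSpan.fundamentalDomain_isBounded (B.ofZLatticeBasis ℝ)).subset_closedBall
    (0 : E3)
  have hcov : ZLattice.covolume Λ = volume.real F :=
    ZLattice.covolume_eq_measure_fundamentalDomain Λ volume fund
  have hcovpos : 0 < ZLattice.covolume Λ := ZLattice.covolume_pos Λ volume
  have hfin : volume F ≠ ⊤ := by
    intro h
    rw [hcov, Measure.real, h] at hcovpos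
    simp at hcovpos
  refine ⟨F, max ρ 0, le_max_right _ _, fund, hFm,
    hρ.trans (closedBall_subset_closedBall (le_max_left _ _)), ?_, ?_⟩
  · rw [hcov, Measure.real, ENNReal.ofReal_toReal hfin]
  · intro x
    obtain ⟨v, hv, -⟩ := ZSpan.exist_unique_vadd_mem_fundamentalDomain (B.ofZLatticeBasis ℝ) x
    have hv' : (v : E3) ∈ Λ :=
      (SetLike.ext_iff.1 (Module.Basis.ofZLatticeBasis_span ℝ Λ B) (v : E3)).1 v.2
    refine ⟨⟨-(v : E3), Λ.neg_mem hv'⟩, ?_⟩
    rw [Set.mem_vadd_set]
    exact ⟨(v : E3) + x, hv, by simp⟩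

/-- Upper bound for the number of lattice points in a ball, through a fundamental domain. -/
theorem count_le (Λ : Submodule ℤ E3) [DiscreteTopology Λ] [IsZLattice ℝ Λ] {R : ℝ}
    {F : Set E3} (hF : IsAddFundamentalDomain Λ F volume) (hFm : MeasurableSet F)
    (hFR : F ⊆ closedBall 0 R) (c : E3) (r : ℝ) :
    (∑' u : Λ, (if ‖(u : E3) - c‖ ≤ r then (1 : ℝ≥0∞) else 0)) * volume F ≤
      volume (closedBall (0 : E3) (r + R)) := by
  have : Countable Λ := inferInstance
  rw [← ENNReal.tsum_mul_right]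
  let G : Λ → Set E3 := fun u => if ‖(u : E3) - c‖ ≤ r then u +ᵥ F else ∅
  have hG : ∀ u : Λ, (if ‖(u : E3) - c‖ ≤ r then (1 : ℝ≥0∞) else 0) * volume F =
      volume (G u) := by
    intro u
    by_cases h : ‖(u : E3) - c‖ ≤ r
    · simp only [G, if_pos h, one_mul]
      exact (measure_vadd volume (u : E3) F).symm
    · simp only [G, if_neg h, zero_mul, measure_empty]
  simp only [hG]
  rw [← measure_iUnion₀]
  · have h0 : volume (closedBall (0 : E3) (r + R)) = volume (closedBall c (r + R)) := by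
      rw [Measure.addHaar_closedBall_center volume c (r + R)]
    rw [h0]
    apply measure_mono
    intro x hx
    simp only [Set.mem_iUnion] at hx
    obtain ⟨u, hu⟩ := hx
    by_cases h : ‖(u : E3) - c‖ ≤ r
    · simp only [G, if_pos h] at hu
      obtain ⟨y, hy, rfl⟩ := hu
      have hy2 := hFR hy
      rw [mem_closedBall_zero_iff] at hy2
      rw [mem_closedBall, dist_eq_norm]
      calc ‖(u : E3) + y - c‖ = ‖((u : E3) - c) + y‖ := by congr 1; abel
        _ ≤ ‖(u : E3) - c‖ + ‖y‖ := norm_add_le _ _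
        _ ≤ r + R := add_le_add h hy2
    · simp only [G, if_neg h] at hu
      exact absurd hu (Set.notMem_empty _)
  · intro u v huv
    by_cases h : ‖(u : E3) - c‖ ≤ r
    · by_cases h' : ‖(v : E3) - c‖ ≤ r
      · simp only [Function.onFun, G, if_pos h, if_pos h']
        exact hF.aedisjoint huv
      · simp only [Function.onFun, G, if_neg h']
        simp [AEDisjoint]
    · simp only [Function.onFun, G, if_neg h]
      simp [AEDisjoint]
  · intro u
    by_cases h : ‖(u : E3) - c‖ ≤ r
    · simp only [G, if_pos h]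
      exact (hFm.const_vadd (u : E3)).nullMeasurableSet
    · simp only [G, if_neg h]
      exact MeasurableSet.empty.nullMeasurableSet

/-- Lower bound for the number of lattice points in a ball, through a fundamental domain. -/
theorem le_count (Λ : Submodule ℤ E3) [DiscreteTopology Λ] [IsZLattice ℝ Λ] {R : ℝ}
    {F : Set E3} (hFR : F ⊆ closedBall 0 R) (hcov : ∀ x : E3, ∃ u : Λ, x ∈ (u : E3) +ᵥ F)
    (r : ℝ) :
    volume (closedBall (0 : E3) (r - R)) ≤
      (∑' u : Λ, (if ‖(u : E3)‖ ≤ r then (1 : ℝ≥0∞) else 0)) * volume F := by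
  have : Countable Λ := inferInstance
  rw [← ENNReal.tsum_mul_right]
  let G : Λ → Set E3 := fun u => if ‖(u : E3)‖ ≤ r then (u : E3) +ᵥ F else ∅
  have hG : ∀ u : Λ, (if ‖(u : E3)‖ ≤ r then (1 : ℝ≥0∞) else 0) * volume F = volume (G u) := by
    intro u
    by_cases h : ‖(u : E3)‖ ≤ r
    · simp only [G, if_pos h, one_mul]
      exact (measure_vadd volume (u : E3) F).symm
    · simp only [G, if_neg h, zero_mul, measure_empty]
  simp only [hG]
  refine le_trans (measure_mono ?_) (measure_iUnion_le G)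
  intro x hx
  obtain ⟨u, hu⟩ := hcov x
  rw [Set.mem_iUnion]
  refine ⟨u, ?_⟩
  have h : ‖(u : E3)‖ ≤ r := by
    obtain ⟨y, hy, hyx⟩ := hu
    have hy2 := hFR hy
    rw [mem_closedBall_zero_iff] at hy2 hx
    have e : (u : E3) = x - y := by rw [← hyx]; simp
    rw [e]
    calc ‖x - y‖ ≤ ‖x‖ + ‖y‖ := norm_sub_le _ _
      _ ≤ (r - R) + R := add_le_add hx hy2
      _ = r := by ring
  simp only [G, if_pos h]
  exact hu

/-- van der Corput's averaging argument. -/
theorem vdc (Λ : Submodule ℤ E3) [DiscreteTopology Λ] [IsZLattice ℝ Λ] (r : ℝ) (N : ℕ)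
    (hN : ∀ c : E3, ∀ S : Finset Λ, (∀ u ∈ S, ‖(u : E3) - c‖ ≤ r) → S.card ≤ N) :
    volume (closedBall (0 : E3) r) ≤ N * ENNReal.ofReal (ZLattice.covolume Λ) := by
  classical
  have : Countable Λ := inferInstance
  have : VAddInvariantMeasure Λ E3 volume := by
    change VAddInvariantMeasure Λ.toAddSubgroup E3 volume
    infer_instance
  obtain ⟨F, R, -, hF, hFm, -, hvol, -⟩ := exists_dom Λ
  rw [← hvol, hF.measure_eq_tsum (closedBall (0 : E3) r)]
  have h1 : ∀ u : Λ, volume ((u +ᵥ closedBall (0 : E3) r) ∩ F) =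
      ∫⁻ x in F, (u +ᵥ closedBall (0 : E3) r).indicator (fun _ => (1 : ℝ≥0∞)) x := by
    intro u
    have hm : MeasurableSet (u +ᵥ closedBall (0 : E3) r) :=
      measurableSet_closedBall.const_vadd (u : E3)
    rw [lintegral_indicator hm, setLIntegral_one, Measure.restrict_apply hm]
  simp only [h1]
  rw [← lintegral_tsum]
  · calc ∫⁻ x in F, ∑' u : Λ, (u +ᵥ closedBall (0 : E3) r).indicator (fun _ => (1 : ℝ≥0∞)) x
        ≤ ∫⁻ _ in F, (N : ℝ≥0∞) := by
          refine lintegral_mono (fun x => ?_)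
          beta_reduce
          rw [ENNReal.tsum_eq_iSup_sum]
          refine iSup_le (fun S => ?_)
          have h2 : ∑ u ∈ S, (u +ᵥ closedBall (0 : E3) r).indicator (fun _ => (1 : ℝ≥0∞)) x =
              ((S.filter (fun u : Λ => x ∈ u +ᵥ closedBall (0 : E3) r)).card : ℝ≥0∞) := by
            rw [Finset.card_filter]
            push_cast
            refine Finset.sum_congr rfl (fun u _ => ?_)
            by_cases h : x ∈ u +ᵥ closedBall (0 : E3) r
            · rw [Set.indicator_of_mem h, if_pos h]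
            · rw [Set.indicator_of_notMem h, if_neg h]
          rw [h2]
          exact_mod_cast hN x _ (fun u hu => by
            obtain ⟨-, y, hy, hyx⟩ := Finset.mem_filter.1 hu
            rw [mem_closedBall_zero_iff] at hy
            have e : (u : E3) - x = -y := by
              rw [← hyx]
              change (u : E3) - ((u : E3) + y) = -y
              abel
            rw [e, norm_neg]
            exact hy)
      _ = N * volume F := by rw [setLIntegral_const]
  · intro u
    exact (measurable_const.indicator (measurableSet_closedBall.const_vadd (u : E3))).aemeasurable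

/-- Many lattice points in a ball near the origin. -/
theorem many_points (Λ : Submodule ℤ E3) [DiscreteTopology Λ] [IsZLattice ℝ Λ] {r D : ℝ}
    (hD : ZLattice.covolume Λ ≤ D) (k : ℕ) (hk : 0 < k)
    (hkr : ((k - 1 : ℕ) : ℝ≥0∞) * ENNReal.ofReal D < volume (closedBall (0 : E3) r)) :
    ∃ c : E3, ‖c‖ ≤ r ∧ ∃ f : Fin k → E3, Function.Injective f ∧ (∀ i, f i ∈ Λ) ∧
      ∀ i, ‖f i - c‖ ≤ r := by
  classical
  have h1 : ∃ c : E3, ∃ S : Finset Λ, (∀ u ∈ S, ‖(u : E3) - c‖ ≤ r) ∧ k ≤ S.card := by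
    by_contra hcon
    push Not at hcon
    have h2 := vdc Λ r (k - 1) (fun c S hS => by
      have := hcon c S hS
      omega)
    have h3 : ((k - 1 : ℕ) : ℝ≥0∞) * ENNReal.ofReal (ZLattice.covolume Λ) ≤
        ((k - 1 : ℕ) : ℝ≥0∞) * ENNReal.ofReal D := by gcongr
    exact absurd (h2.trans h3) (not_le.2 hkr)
  obtain ⟨c, S, hS, hkS⟩ := h1
  obtain ⟨T, hTS, hT⟩ := Finset.exists_subset_card_eq hkS
  let e : Fin k ≃ T := (Fintype.equivFinOfCardEq (by rw [Fintype.card_coe, hT])).symm
  let u0 : Λ := (e ⟨0, hk⟩ : Λ)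
  have hu0 : u0 ∈ S := hTS (e ⟨0, hk⟩).2
  refine ⟨c - u0, ?_, fun i => ((e i : Λ) : E3) - u0, ?_, ?_, ?_⟩
  · rw [← norm_neg, neg_sub]
    exact hS u0 hu0
  · intro i j hij
    have h3 : ((e i : Λ) : E3) = ((e j : Λ) : E3) := by simpa using hij
    exact e.injective (Subtype.ext (Subtype.ext h3))
  · intro i
    exact Λ.sub_mem (e i : Λ).2 u0.2
  · intro i
    have h4 := hS (e i : Λ) (hTS (e i).2)
    have h5 : ((e i : Λ) : E3) - u0 - (c - u0) = ((e i : Λ) : E3) - c := by abel
    beta_reduce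
    rw [h5]
    exact h4

/-- Volume bound for separated families of points. -/
theorem sep_bound {κ : Type*} [Fintype κ] {g : κ → E3} {ρ R : ℝ} (c : E3)
    (hsep : ∀ i j, i ≠ j → ρ ≤ ‖g i - g j‖) (hR : ∀ i, ‖g i - c‖ ≤ R) :
    (Fintype.card κ : ℝ≥0∞) * volume (ball (0 : E3) (ρ / 2)) ≤
      volume (closedBall (0 : E3) (R + ρ / 2)) := by
  have h1 : (Fintype.card κ : ℝ≥0∞) * volume (ball (0 : E3) (ρ / 2)) =
      ∑ i, volume (ball (g i) (ρ / 2)) := by
    simp only [Measure.addHaar_ball_center volume (g _) (ρ / 2)]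
    simp
  have h0 : volume (closedBall (0 : E3) (R + ρ / 2)) = volume (closedBall c (R + ρ / 2)) := by
    rw [Measure.addHaar_closedBall_center volume c (R + ρ / 2)]
  rw [h1, h0]
  rw [← tsum_fintype (L := SummationFilter.unconditional κ), ← measure_iUnion]
  · apply measure_mono
    intro x hx
    rw [Set.mem_iUnion] at hx
    obtain ⟨i, hi⟩ := hx
    rw [mem_ball, dist_eq_norm] at hi
    rw [mem_closedBall, dist_eq_norm]
    calc ‖x - c‖ = ‖(x - g i) + (g i - c)‖ := by congr 1; abel
      _ ≤ ‖x - g i‖ + ‖g i - c‖ := norm_add_le _ _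
      _ ≤ ρ / 2 + R := add_le_add hi.le (hR i)
      _ = R + ρ / 2 := by ring
  · intro i j hij
    rw [Function.onFun, Set.disjoint_left]
    intro x hx hx'
    rw [mem_ball, dist_eq_norm] at hx hx'
    have := hsep i j hij
    have h2 : ‖g i - g j‖ ≤ ‖x - g i‖ + ‖x - g j‖ := by
      calc ‖g i - g j‖ = ‖(x - g j) - (x - g i)‖ := by congr 1; abel
        _ ≤ ‖x - g j‖ + ‖x - g i‖ := norm_sub_le _ _
        _ = _ := add_comm _ _
    linarith
  · intro i
    exact measurableSet_ball

end Pool.Agent.Helper69.MD
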