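import Pool.Agent.Helper69.MD.Lat

/-!
# Limits of lattices along an ultrafilter
-/

set_option autoImplicit false
namespace Pool.Agent.Helper69.MD
open MeasureTheory Filter Topology Metric
open scoped Pointwise ENNReal RealInnerProductSpace

/-- The volume of the unit ball. -/
noncomputable def V1 : ℝ := volume.real (closedBall (0 : E3) 1)

theorem V1_pos : 0 < V1 := by
  unfold V1
  rw [Measure.real, ENNReal.toReal_pos_iff]
  exact ⟨measure_closedBall_pos volume _ one_pos, measure_closedBall_lt_top⟩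

theorem vol_cB_ofReal {r : ℝ} (hr : 0 ≤ r) (c : E3) :
    volume (closedBall c r) = ENNReal.ofReal (r ^ 3 * V1) := by
  rw [vol_cB hr, ENNReal.ofReal_mul (by positivity), V1, ofReal_measureReal (vol_cB_ne_top 1 0)]

theorem vol_ball_ofReal {r : ℝ} (hr : 0 ≤ r) (c : E3) :
    volume (ball c r) = ENNReal.ofReal (r ^ 3 * V1) := by
  rw [← vol_cB_ofReal hr c, Measure.addHaar_closedBall_eq_addHaar_ball volume c]

theorem sep_bound_real {κ : Type*} [Fintype κ] {g : κ → E3} {ρ R : ℝ} (hρ : 0 ≤ ρ) (hR0 : 0 ≤ R)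
    (c : E3) (hsep : ∀ i j, i ≠ j → ρ ≤ ‖g i - g j‖) (hR : ∀ i, ‖g i - c‖ ≤ R) :
    (Fintype.card κ : ℝ) * (ρ / 2) ^ 3 ≤ (R + ρ / 2) ^ 3 := by
  have h := sep_bound c hsep hR
  rw [vol_ball_ofReal (by positivity), vol_cB_ofReal (by positivity),
    ← ENNReal.ofReal_natCast, ← ENNReal.ofReal_mul (by positivity),
    ENNReal.ofReal_le_ofReal_iff (by have := V1_pos; positivity), ← mul_assoc] at h
  exact le_of_mul_le_mul_right h V1_pos

/-- Number of lattice points and covolume, real form. -/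
theorem card_mul_covol_le (Λ : Submodule ℤ E3) [DiscreteTopology Λ] [IsZLattice ℝ Λ] :
    ∃ R : ℝ, 0 ≤ R ∧ ∀ (c : E3) (r : ℝ), 0 ≤ r → ∀ (k : ℕ) (g : Fin k → E3),
      Function.Injective g → (∀ i, g i ∈ Λ) → (∀ i, ‖g i - c‖ ≤ r) →
      (k : ℝ) * ZLattice.covolume Λ ≤ (r + R) ^ 3 * V1 := by
  classical
  obtain ⟨F, R, hR0, hF, hFm, hFR, hvol, -⟩ := exists_dom Λ
  refine ⟨R, hR0, fun c r hr k g hg hgΛ hgr => ?_⟩
  have h := count_le Λ hF hFm hFR c r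
  have hk : (k : ℝ≥0∞) ≤ ∑' u : Λ, (if ‖(u : E3) - c‖ ≤ r then (1 : ℝ≥0∞) else 0) := by
    let S : Finset Λ := Finset.univ.image (fun i : Fin k => (⟨g i, hgΛ i⟩ : Λ))
    have hS : S.card = k := by
      rw [Finset.card_image_of_injective, Finset.card_univ, Fintype.card_fin]
      intro i j hij
      exact hg (congrArg Subtype.val hij)
    calc (k : ℝ≥0∞) = ∑ u ∈ S, (if ‖(u : E3) - c‖ ≤ r then (1 : ℝ≥0∞) else 0) := by
          rw [Finset.sum_congr rfl (g := fun _ => (1 : ℝ≥0∞))]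
          · simp [hS]
          · intro u hu
            obtain ⟨i, -, rfl⟩ := Finset.mem_image.1 hu
            rw [if_pos (hgr i)]
      _ ≤ _ := ENNReal.sum_le_tsum S
  have h2 : (k : ℝ≥0∞) * volume F ≤ volume (closedBall (0 : E3) (r + R)) :=
    le_trans (by gcongr) h
  rw [hvol, vol_cB_ofReal (by positivity), ← ENNReal.ofReal_natCast,
    ← ENNReal.ofReal_mul (by positivity),
    ENNReal.ofReal_le_ofReal_iff (by have := V1_pos; positivity)] at h2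
  exact h2

/-- The limit of a sequence of lattices along a filter. -/
def limLat (𝒰 : Filter ℕ) (L : ℕ → Submodule ℤ E3) : Submodule ℤ E3 where
  carrier := {x | ∃ f : ℕ → E3, (∀ n, f n ∈ L n) ∧ Tendsto f 𝒰 (𝓝 x)}
  add_mem' := by
    rintro x y ⟨f, hf, hfx⟩ ⟨g, hg, hgy⟩
    exact ⟨fun n => f n + g n, fun n => (L n).add_mem (hf n) (hg n), hfx.add hgy⟩
  zero_mem' := ⟨fun _ => 0, fun n => (L n).zero_mem, tendsto_const_nhds⟩
  smul_mem' := by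
    rintro m x ⟨f, hf, hfx⟩
    exact ⟨fun n => m • f n, fun n => (L n).smul_mem m (hf n), hfx.const_smul m⟩

theorem mem_limLat {𝒰 : Filter ℕ} {L : ℕ → Submodule ℤ E3} {x : E3} :
    x ∈ limLat 𝒰 L ↔ ∃ f : ℕ → E3, (∀ n, f n ∈ L n) ∧ Tendsto f 𝒰 (𝓝 x) := Iff.rfl

theorem ulim (𝒰 : Ultrafilter ℕ) {f : ℕ → E3} {R : ℝ} (h : ∀ n, ‖f n‖ ≤ R) :
    ∃ x, Tendsto f 𝒰 (𝓝 x) := by
  obtain ⟨x, -, hx⟩ := (isCompact_closedBall (0 : E3) R).ultrafilter_le_nhds (𝒰.map f) (by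
    rw [Ultrafilter.coe_map, le_principal_iff, mem_map]
    exact univ_mem' (fun n => by simpa using h n))
  exact ⟨x, hx⟩

section
variable {𝒰 : Ultrafilter ℕ} {L : ℕ → Submodule ℤ E3} {ρ : ℝ}

theorem limLat_sep (hsep : ∀ n, ∀ u ∈ L n, u ≠ 0 → ρ ≤ ‖u‖) :
    ∀ x ∈ limLat 𝒰 L, x ≠ 0 → ρ ≤ ‖x‖ := by
  rintro x ⟨f, hf, hfx⟩ hx
  by_contra hcon
  push Not at hcon
  have h1 : ∀ᶠ n in (𝒰 : Filter ℕ), ‖f n‖ < ρ := hfx.norm.eventually_lt_const hcon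
  have h2 : ∀ᶠ n in (𝒰 : Filter ℕ), f n = 0 := h1.mono (fun n hn => by
    by_contra h0
    exact absurd (hsep n (f n) (hf n) h0) (not_le.2 hn))
  exact hx (tendsto_nhds_unique (hfx.congr' h2) tendsto_const_nhds)

theorem discrete_of_sep {Λ : Submodule ℤ E3} (hρ : 0 < ρ)
    (hsep : ∀ x ∈ Λ, x ≠ 0 → ρ ≤ ‖x‖) : DiscreteTopology Λ := by
  refine DiscreteTopology.of_forall_le_dist hρ (fun x y hxy => ?_)
  beta_reduce
  rw [Subtype.dist_eq, dist_eq_norm]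
  exact hsep _ (Λ.sub_mem x.2 y.2) (fun h => hxy (Subtype.ext (sub_eq_zero.1 h)))

theorem lim_points [∀ n, DiscreteTopology (L n)] [∀ n, IsZLattice ℝ (L n)] {D : ℝ} (hD : 0 < D)
    (hsep : ∀ n, ∀ u ∈ L n, u ≠ 0 → ρ ≤ ‖u‖)
    (hcov : ∀ n, ZLattice.covolume (L n) ≤ D) {r : ℝ} (hr : 0 < r) :
    ∃ k : ℕ, r ^ 3 * V1 ≤ k * D ∧ ∃ c : E3, ‖c‖ ≤ r ∧ ∃ g : Fin k → E3,
      (∀ i j, i ≠ j → ρ ≤ ‖g i - g j‖) ∧ (∀ i, g i ∈ limLat 𝒰 L) ∧ ∀ i, ‖g i - c‖ ≤ r := by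
  have hV := V1_pos
  set k := ⌈r ^ 3 * V1 / D⌉₊ with hk
  have hk0 : 0 < k := Nat.ceil_pos.2 (by positivity)
  have hk1 : r ^ 3 * V1 ≤ k * D := by
    rw [← div_le_iff₀ hD]
    exact Nat.le_ceil _
  have hk2 : ((k - 1 : ℕ) : ℝ) * D < r ^ 3 * V1 := by
    rw [← lt_div_iff₀ hD]
    exact (Nat.lt_ceil).1 (by omega)
  have hk3 : ((k - 1 : ℕ) : ℝ≥0∞) * ENNReal.ofReal D < volume (closedBall (0 : E3) r) := by
    rw [vol_cB_ofReal hr.le, ← ENNReal.ofReal_natCast, ← ENNReal.ofReal_mul (by positivity),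
      ENNReal.ofReal_lt_ofReal_iff (by positivity)]
    exact hk2
  refine ⟨k, hk1, ?_⟩
  choose c hc f hf hfL hfc using fun n => many_points (L n) (hcov n) k hk0 hk3
  obtain ⟨c', hc'⟩ := ulim 𝒰 hc
  have hfb : ∀ i : Fin k, ∀ n, ‖f n i‖ ≤ 2 * r := by
    intro i n
    calc ‖f n i‖ = ‖(f n i - c n) + c n‖ := by congr 1; abel
      _ ≤ ‖f n i - c n‖ + ‖c n‖ := norm_add_le _ _
      _ ≤ r + r := add_le_add (hfc n i) (hc n)
      _ = 2 * r := by ring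
  choose g hg using fun i : Fin k => ulim 𝒰 (hfb i)
  refine ⟨c', le_of_tendsto' hc'.norm hc, g, ?_, ?_, ?_⟩
  · intro i j hij
    refine ge_of_tendsto' ((hg i).sub (hg j)).norm (fun n => ?_)
    exact hsep n _ ((L n).sub_mem (hfL n i) (hfL n j)) (sub_ne_zero.2 (fun h => hij (hf n h)))
  · intro i
    exact ⟨fun n => f n i, fun n => hfL n i, hg i⟩
  · intro i
    exact le_of_tendsto' ((hg i).sub hc').norm (fun n => hfc n i)

theorem limLat_span [∀ n, DiscreteTopology (L n)] [∀ n, IsZLattice ℝ (L n)] {D : ℝ}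
    (hD : 0 < D) (hρ : 0 < ρ) (hsep : ∀ n, ∀ u ∈ L n, u ≠ 0 → ρ ≤ ‖u‖)
    (hcov : ∀ n, ZLattice.covolume (L n) ≤ D) :
    Submodule.span ℝ (limLat 𝒰 L : Set E3) = ⊤ := by
  by_contra hcon
  have hV := V1_pos
  set H := Submodule.span ℝ (limLat 𝒰 L : Set E3) with hH
  have h1 : Hᗮ ≠ ⊥ := fun h => hcon ((Submodule.orthogonal_eq_bot_iff).1 h)
  obtain ⟨ν₀, hν₀, hν₀0⟩ := Submodule.exists_mem_ne_zero_of_ne_bot h1
  set ν : E3 := (ρ / ‖ν₀‖) • ν₀ with hν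
  have hνH : ν ∈ Hᗮ := Hᗮ.smul_mem _ hν₀
  have hνn : ‖ν‖ = ρ := by
    rw [hν, norm_smul, Real.norm_eq_abs, abs_of_pos (by positivity)]
    exact div_mul_cancel₀ _ (norm_ne_zero_iff.2 hν₀0)
  -- choice of the radius
  set r : ℝ := max ρ (27 * D * ρ / (V1 * (ρ / 2) ^ 3) + 1) with hr
  have hr1 : ρ ≤ r := le_max_left _ _
  have hr2 : 27 * D * ρ / (V1 * (ρ / 2) ^ 3) < r :=
    lt_of_lt_of_le (lt_add_one _) (le_max_right _ _)
  have hr0 : 0 < r := hρ.trans_le hr1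
  obtain ⟨k, hk, c, hc, g, hgs, hgL, hgc⟩ := lim_points (𝒰 := 𝒰) hD hsep hcov hr0
  set N := ⌊r / ρ⌋₊ with hN
  have hN1 : (N : ℝ) * ρ ≤ r := by
    rw [← le_div_iff₀ hρ]
    exact Nat.floor_le (by positivity)
  have hN2 : r ≤ (N + 1 : ℝ) * ρ := by
    rw [← div_le_iff₀ hρ]
    exact (Nat.lt_floor_add_one _).le
  let a : Fin k × Fin (N + 1) → E3 := fun p => g p.1 + (p.2 : ℝ) • ν
  have horth : ∀ x ∈ H, ∀ t : ℝ, ‖x + t • ν‖ ^ 2 = ‖x‖ ^ 2 + (t * ρ) ^ 2 := by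
    intro x hx t
    have h2 : ⟪x, t • ν⟫ = 0 := by
      rw [inner_smul_right, Submodule.inner_right_of_mem_orthogonal hx hνH, mul_zero]
    rw [norm_add_sq_real, h2, norm_smul, hνn, Real.norm_eq_abs, mul_pow, mul_pow, sq_abs]
    ring
  have hasep : ∀ p q, p ≠ q → ρ ≤ ‖a p - a q‖ := by
    rintro ⟨i, l⟩ ⟨j, m⟩ hpq
    have e : a (i, l) - a (j, m) = (g i - g j) + ((l : ℝ) - m) • ν := by
      simp only [a, sub_smul]
      abel
    have hmem : g i - g j ∈ H := H.sub_mem (Submodule.subset_span (hgL i))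
      (Submodule.subset_span (hgL j))
    rw [e]
    have h3 := horth _ hmem ((l : ℝ) - m)
    refine le_of_sq_le_sq ?_ (norm_nonneg _)
    rw [h3]
    by_cases hlm : l = m
    · subst hlm
      have hij : i ≠ j := fun h => hpq (by rw [h])
      have h4 := hgs i j hij
      have : ρ ^ 2 ≤ ‖g i - g j‖ ^ 2 := by gcongr
      nlinarith [sq_nonneg (((l : ℝ) - l) * ρ)]
    · have h5 : (1 : ℝ) ≤ ((l : ℝ) - m) ^ 2 := by
        have h6 : ((l : ℕ) : ℤ) - ((m : ℕ) : ℤ) ≠ 0 := by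
          intro h
          apply hlm
          apply Fin.ext
          omega
        have h7 : (1 : ℤ) ≤ (((l : ℕ) : ℤ) - ((m : ℕ) : ℤ)) ^ 2 := by
          have := Int.one_le_abs h6
          nlinarith [sq_abs (((l : ℕ) : ℤ) - ((m : ℕ) : ℤ)), abs_nonneg (((l : ℕ) : ℤ) - ((m : ℕ) : ℤ))]
        exact_mod_cast h7
      nlinarith [sq_nonneg ‖g i - g j‖, sq_nonneg ρ]
  have hac : ∀ p, ‖a p - c‖ ≤ 2 * r := by
    rintro ⟨i, l⟩
    have hl : ((l : ℕ) : ℝ) ≤ N := by exact_mod_cast Nat.lt_succ_iff.1 l.2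
    calc ‖a (i, l) - c‖ = ‖(g i - c) + ((l : ℕ) : ℝ) • ν‖ := by
          simp only [a]; congr 1; abel
      _ ≤ ‖g i - c‖ + ‖((l : ℕ) : ℝ) • ν‖ := norm_add_le _ _
      _ ≤ r + N * ρ := by
          rw [norm_smul, hνn, Real.norm_eq_abs, abs_of_nonneg (by positivity)]
          exact add_le_add (hgc i) (by gcongr)
      _ ≤ 2 * r := by linarith
  have hb := sep_bound_real hρ.le (by positivity) c hasep hac
  rw [Fintype.card_prod, Fintype.card_fin, Fintype.card_fin] at hb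
  push_cast at hb
  -- k (N+1) (ρ/2)^3 ≤ (2r+ρ/2)^3 ≤ 27 r^3
  have h8 : (2 * r + ρ / 2) ^ 3 ≤ 27 * r ^ 3 := by
    calc (2 * r + ρ / 2) ^ 3 ≤ (3 * r) ^ 3 := by gcongr; linarith
      _ = 27 * r ^ 3 := by ring
  have h9 : r * (V1 * (ρ / 2) ^ 3) ≤ 27 * D * ρ := by
    have h10 : (r ^ 3 * V1) * r * (ρ / 2) ^ 3 ≤ (k * D) * ((N + 1) * ρ) * (ρ / 2) ^ 3 := by gcongr
    have h11 : (k * D) * ((N + 1) * ρ) * (ρ / 2) ^ 3 ≤ D * ρ * (27 * r ^ 3) := by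
      calc (k * D) * ((N + 1) * ρ) * (ρ / 2) ^ 3
          = D * ρ * ((k : ℝ) * (N + 1) * (ρ / 2) ^ 3) := by ring
        _ ≤ D * ρ * (27 * r ^ 3) := mul_le_mul_of_nonneg_left (hb.trans h8) (by positivity)
    have h12 : (r * (V1 * (ρ / 2) ^ 3)) * r ^ 3 ≤ (27 * D * ρ) * r ^ 3 := by nlinarith
    exact le_of_mul_le_mul_right h12 (by positivity)
  rw [div_lt_iff₀ (by positivity)] at hr2
  linarith

theorem covol_le_of_points {Λ : Submodule ℤ E3} [DiscreteTopology Λ] [IsZLattice ℝ Λ] {D : ℝ}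
    (hD : 0 < D) (hρ : 0 < ρ)
    (h : ∀ r : ℝ, 0 < r → ∃ k : ℕ, r ^ 3 * V1 ≤ k * D ∧ ∃ c : E3, ∃ g : Fin k → E3,
      (∀ i j, i ≠ j → ρ ≤ ‖g i - g j‖) ∧ (∀ i, g i ∈ Λ) ∧ ∀ i, ‖g i - c‖ ≤ r) :
    ZLattice.covolume Λ ≤ D := by
  have hV := V1_pos
  obtain ⟨R, hR0, hR⟩ := card_mul_covol_le Λ
  have hcpos : 0 < ZLattice.covolume Λ := ZLattice.covolume_pos Λ volume
  have h1 : ∀ r : ℝ, 0 < r → ZLattice.covolume Λ ≤ D * ((r + R) / r) ^ 3 := by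
    intro r hr
    obtain ⟨k, hk, c, g, hg1, hg2, hg3⟩ := h r hr
    have hinj : Function.Injective g := by
      intro i j hij
      by_contra hne
      have := hg1 i j hne
      rw [hij, sub_self, norm_zero] at this
      linarith
    have h2 := hR c r hr.le k g hinj hg2 hg3
    have h3 : r ^ 3 * V1 * ZLattice.covolume Λ ≤ D * ((r + R) ^ 3 * V1) := by
      calc r ^ 3 * V1 * ZLattice.covolume Λ ≤ (k * D) * ZLattice.covolume Λ := by gcongr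
        _ = D * (k * ZLattice.covolume Λ) := by ring
        _ ≤ D * ((r + R) ^ 3 * V1) := mul_le_mul_of_nonneg_left h2 hD.le
    rw [div_pow, ← mul_div_assoc, le_div_iff₀ (by positivity)]
    have h4 : (ZLattice.covolume Λ * r ^ 3) * V1 ≤ (D * (r + R) ^ 3) * V1 := by nlinarith
    exact le_of_mul_le_mul_right h4 hV
  have hlim : Tendsto (fun r : ℝ => D * ((r + R) / r) ^ 3) atTop (𝓝 (D * 1 ^ 3)) := by
    apply Tendsto.const_mul
    apply Tendsto.pow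
    have h1 : Tendsto (fun r : ℝ => 1 + R / r) atTop (𝓝 (1 + 0)) :=
      tendsto_const_nhds.add (tendsto_const_nhds.div_atTop tendsto_id)
    rw [add_zero] at h1
    refine h1.congr' ?_
    filter_upwards [eventually_gt_atTop (0 : ℝ)] with r hr
    field_simp
  rw [one_pow, mul_one] at hlim
  refine ge_of_tendsto hlim ?_
  filter_upwards [eventually_gt_atTop (0 : ℝ)] with r hr
  exact h1 r hr

end

/-- Compactness of the space of lattices (Mahler), in the form which is needed. -/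
theorem limit_lattice (𝒰 : Ultrafilter ℕ) (L : ℕ → Submodule ℤ E3)
    [∀ n, DiscreteTopology (L n)] [∀ n, IsZLattice ℝ (L n)] {D ρ : ℝ}
    (hD : 0 < D) (hρ : 0 < ρ) (hsep : ∀ n, ∀ u ∈ L n, u ≠ 0 → ρ ≤ ‖u‖)
    (hcov : ∀ n, ZLattice.covolume (L n) ≤ D) :
    ∃ (_ : DiscreteTopology (limLat 𝒰 L)) (_ : IsZLattice ℝ (limLat 𝒰 L)),
      ZLattice.covolume (limLat 𝒰 L) ≤ D := by
  have h1 : DiscreteTopology (limLat 𝒰 L) := discrete_of_sep hρ (limLat_sep hsep)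
  have h2 : IsZLattice ℝ (limLat 𝒰 L) := ⟨limLat_span hD hρ hsep hcov⟩
  refine ⟨h1, h2, covol_le_of_points hD hρ (fun r hr => ?_)⟩
  obtain ⟨k, hk, c, -, g, hg1, hg2, hg3⟩ := lim_points (𝒰 := 𝒰) hD hsep hcov hr
  exact ⟨k, hk, c, g, hg1, hg2, hg3⟩

end Pool.Agent.Helper69.MD
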