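import Pool.Agent.Helper69.MD.Conf

/-!
# Extreme points of minimisers are contact points
-/

set_option autoImplicit false
namespace Pool.Agent.Helper69.MD
open MeasureTheory Filter Topology Metric
open scoped Pointwise ENNReal

variable {ι : Type*}

/-- The largest density of the periodic packings with sign pattern `s`. -/
noncomputable def dg [Fintype ι] (s : ι → ℝ) (K : Set E3) : ℝ≥0∞ :=
  ⨆ (Λ : Submodule ℤ E3) (_ : DiscreteTopology Λ) (_ : IsZLattice ℝ Λ) (v : ι → E3)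
    (_ : Conf K s Λ v), (Fintype.card ι : ℝ≥0∞) * volume K / ENNReal.ofReal (ZLattice.covolume Λ)

theorem le_dg [Fintype ι] {s : ι → ℝ} {K : Set E3} (Λ : Submodule ℤ E3) [DiscreteTopology Λ]
    [IsZLattice ℝ Λ] {v : ι → E3} (h : Conf K s Λ v) :
    (Fintype.card ι : ℝ≥0∞) * volume K / ENNReal.ofReal (ZLattice.covolume Λ) ≤ dg s K := by
  unfold dg
  exact le_iSup_of_le Λ (le_iSup_of_le ‹_› (le_iSup_of_le ‹_› (le_iSup_of_le v
    (le_iSup_of_le h le_rfl))))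

theorem covol_lower {ρ : ℝ} (hρ : 0 < ρ) (Λ : Submodule ℤ E3) [DiscreteTopology Λ]
    [IsZLattice ℝ Λ] (hsep : ∀ u ∈ Λ, u ≠ 0 → ρ ≤ ‖u‖) :
    (ρ / 2) ^ 3 * V1 / 8 ≤ ZLattice.covolume Λ := by
  have hV := V1_pos
  have h1 := vdc Λ (ρ / 2) 8 (fun c S hS => by
    have h2 := sep_bound_real (κ := S) (g := fun u => ((u : Λ) : E3)) (R := ρ / 2) hρ.le
      (by positivity) c (fun u w huw => hsep _ (Λ.sub_mem (u : Λ).2 (w : Λ).2)
        (fun h => huw (Subtype.ext (Subtype.ext (sub_eq_zero.1 h))))) (fun u => hS u u.2)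
    rw [Fintype.card_coe, add_halves] at h2
    have h3 : (S.card : ℝ) ≤ 8 := by
      have h4 : (S.card : ℝ) * (ρ / 2) ^ 3 ≤ 8 * (ρ / 2) ^ 3 := by
        calc _ ≤ ρ ^ 3 := h2
          _ = 8 * (ρ / 2) ^ 3 := by ring
      exact le_of_mul_le_mul_right h4 (by positivity)
    exact_mod_cast h3)
  have hcp : 0 < ZLattice.covolume Λ := ZLattice.covolume_pos Λ volume
  rw [vol_cB_ofReal (by positivity), ← ENNReal.ofReal_natCast,
    ← ENNReal.ofReal_mul (by positivity), ENNReal.ofReal_le_ofReal_iff (by positivity)] at h1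
  push_cast at h1
  linarith

theorem exists_ball_of_body {K : Set E3} (hK : IsConvexBody K) :
    ∃ (x₀ : E3) (η : ℝ), 0 < η ∧ closedBall x₀ η ⊆ K := by
  obtain ⟨x₀, hx₀⟩ := hK.interior_nonempty
  obtain ⟨η, hη, hb⟩ := Metric.isOpen_iff.1 isOpen_interior x₀ hx₀
  refine ⟨x₀, η / 2, by positivity, fun x hx => interior_subset (hb ?_)⟩
  rw [mem_closedBall] at hx
  rw [mem_ball]
  linarith

theorem dg_ne_top [Fintype ι] [Nonempty ι] {s : ι → ℝ} (hs : ∀ i, s i = 1 ∨ s i = -1)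
    {K : Set E3} (hK : IsConvexBody K) : dg s K ≠ ⊤ := by
  have hV := V1_pos
  obtain ⟨x₀, η, hη, hb⟩ := exists_ball_of_body hK
  have h1 : dg s K ≤ (Fintype.card ι : ℝ≥0∞) * volume K /
      ENNReal.ofReal ((η / 2) ^ 3 * V1 / 8) := by
    unfold dg
    refine iSup_le fun Λ => iSup_le fun h1 => iSup_le fun h2 => iSup_le fun v => iSup_le fun h => ?_
    gcongr
    exact covol_lower hη Λ (h.sep hs hη hb)
  refine ne_top_of_le_ne_top ?_ h1
  refine ENNReal.div_ne_top (ENNReal.mul_ne_top (ENNReal.natCast_ne_top _) hK.volume_ne_top) ?_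
  exact (ENNReal.ofReal_pos.2 (by positivity)).ne'

theorem ulim' (𝒰 : Ultrafilter ℕ) {f : ℕ → E3} {R : ℝ}
    (h : ∀ᶠ n in (𝒰 : Filter ℕ), ‖f n‖ ≤ R) : ∃ x, Tendsto f 𝒰 (𝓝 x) := by
  obtain ⟨x, -, hx⟩ := (isCompact_closedBall (0 : E3) R).ultrafilter_le_nhds (𝒰.map f) (by
    rw [Ultrafilter.coe_map, le_principal_iff, mem_map]
    exact h.mono (fun n hn => by simpa using hn))
  exact ⟨x, hx⟩

theorem eventually_const {κ : Type*} [Finite κ] (𝒰 : Ultrafilter ℕ) (f : ℕ → κ) :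
    ∃ k, ∀ᶠ n in (𝒰 : Filter ℕ), f n = k := by
  obtain ⟨k, hk⟩ := (𝒰.map f).eq_pure_of_finite
  refine ⟨k, ?_⟩
  have h1 : {k} ∈ 𝒰.map f := by
    rw [hk]
    exact Ultrafilter.mem_pure.2 rfl
  exact h1

/-- The cosets of the lattices can be represented by bounded vectors. -/
theorem exists_reduction {𝒰 : Ultrafilter ℕ} {L : ℕ → Submodule ℤ E3}
    [∀ n, DiscreteTopology (L n)] [∀ n, IsZLattice ℝ (L n)] {D ρ : ℝ}
    (hD : 0 < D) (hρ : 0 < ρ) (hsep : ∀ n, ∀ u ∈ L n, u ≠ 0 → ρ ≤ ‖u‖)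
    (hcov : ∀ n, ZLattice.covolume (L n) ≤ D) :
    ∃ B : ℝ, ∀ᶠ n in (𝒰 : Filter ℕ), ∀ x : E3, ∃ w ∈ L n, ‖x - w‖ ≤ B := by
  obtain ⟨h1, h2, -⟩ := limit_lattice 𝒰 L hD hρ hsep hcov
  let b := Module.Free.chooseBasis ℤ (limLat 𝒰 L)
  let β := b.ofZLatticeBasis ℝ (limLat 𝒰 L)
  have hβ : ∀ k, β k ∈ limLat 𝒰 L := by
    intro k
    rw [Module.Basis.ofZLatticeBasis_apply]
    exact (b k).2
  choose f hf hfb using fun k => mem_limLat.1 (hβ k)
  have hfin : Finite (Module.Free.ChooseBasisIndex ℤ (limLat 𝒰 L)) := inferInstance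
  have hT : Tendsto (fun n => fun k => f k n) 𝒰 (𝓝 (fun k => β k)) :=
    tendsto_pi_nhds.2 hfb
  have hli : ∀ᶠ n in (𝒰 : Filter ℕ), LinearIndependent ℝ (fun k => f k n) :=
    hT ((isOpen_setOfPred_linearIndependent (𝕜 := ℝ)).mem_nhds β.linearIndependent)
  have hbd : ∀ᶠ n in (𝒰 : Filter ℕ), ∀ k, ‖f k n‖ ≤ ‖β k‖ + 1 := by
    rw [eventually_all]
    intro k
    exact ((hfb k).norm.eventually_lt_const (lt_add_one _)).mono (fun n hn => hn.le)
  refine ⟨∑ k, (‖β k‖ + 1), ?_⟩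
  filter_upwards [hli, hbd] with n hn1 hn2 x
  have hcard : Fintype.card (Module.Free.ChooseBasisIndex ℤ (limLat 𝒰 L)) =
      Module.finrank ℝ E3 := (Module.finrank_eq_card_basis β).symm
  have hne : Nonempty (Module.Free.ChooseBasisIndex ℤ (limLat 𝒰 L)) := by
    rw [← Fintype.card_pos_iff, hcard, finrank_euclideanSpace_fin]
    norm_num
  let γ := basisOfLinearIndependentOfCardEqFinrank hn1 hcard
  have hγ : ∀ k, γ k = f k n := fun k => by
    simp [γ]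
  refine ⟨ZSpan.floor γ x, ?_, ?_⟩
  · have h3 : Submodule.span ℤ (Set.range γ) ≤ L n := by
      rw [Submodule.span_le]
      rintro _ ⟨k, rfl⟩
      rw [hγ]
      exact hf k n
    exact h3 (ZSpan.floor γ x).2
  · have h4 := ZSpan.norm_fract_le γ x
    rw [ZSpan.fract_apply] at h4
    refine h4.trans (Finset.sum_le_sum fun k _ => ?_)
    rw [hγ]
    exact hn2 k

end Pool.Agent.Helper69.MD
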